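import Mathlib

/-!
# Hausdorff measure of limsup sets of small balls, and the size of the `n`-th prime
-/

set_option autoImplicit false

namespace Pool.Agent.D0H72.AN

open MeasureTheory Filter Topology Set
open scoped ENNReal NNReal

/-- a set whose points lie in infinitely many of the given small balls has Hausdorff measure zero -/
theorem limsup_null {σ : ℝ} (hσ : 0 < σ) (N : ℕ → Finset ℝ) (ρ : ℕ → ℝ) (hρ0 : ∀ m, 0 ≤ ρ m)
    (hρ : Tendsto ρ atTop (𝓝 0))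
    (hsum : Summable fun m => ((N m).card : ℝ) * (2 * ρ m) ^ σ) (S : Set ℝ)
    (hS : ∀ α ∈ S, ∃ᶠ m in atTop, ∃ c ∈ N m, |α - c| ≤ ρ m) :
    μH[σ] S = 0 := by
  set F : ℕ → ℝ≥0∞ := fun m => ENNReal.ofReal (((N m).card : ℝ) * (2 * ρ m) ^ σ) with hF
  have hFsum : ∑' m, F m ≠ ∞ := by
    have h1 : ∀ m, 0 ≤ ((N m).card : ℝ) * (2 * ρ m) ^ σ := fun m => by
      have := hρ0 m
      positivity
    rw [hF, ← ENNReal.ofReal_tsum_of_nonneg h1 hsum]
    exact ENNReal.ofReal_ne_top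
  have hG := ENNReal.tendsto_sum_nat_add F hFsum
  have hr : Tendsto (fun M : ℕ => ⨆ k : ℕ, ENNReal.ofReal (2 * ρ (k + M))) atTop (𝓝 0) := by
    rw [ENNReal.tendsto_nhds_zero]
    intro ε hε
    obtain ⟨δ, hδ, hδε⟩ : ∃ δ : ℝ, 0 < δ ∧ ENNReal.ofReal δ ≤ ε := by
      rcases eq_or_ne ε ∞ with h | h
      · exact ⟨1, one_pos, by rw [h]; exact le_top⟩
      · exact ⟨ε.toReal, ENNReal.toReal_pos hε.ne' h, by rw [ENNReal.ofReal_toReal h]⟩
    have h2 : ∀ᶠ m in atTop, ρ m < δ / 2 := hρ.eventually_lt_const (by positivity)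
    obtain ⟨m₀, hm₀⟩ := eventually_atTop.1 h2
    filter_upwards [eventually_ge_atTop m₀] with M hM
    refine iSup_le fun k => le_trans (ENNReal.ofReal_le_ofReal ?_) hδε
    have := hm₀ (k + M) (by omega)
    linarith
  have key := Measure.hausdorffMeasure_le_liminf_tsum (X := ℝ) (β := ℕ)
    (ι := fun M => (k : ℕ) × {c // c ∈ N (k + M)}) σ S (l := atTop)
    (fun M => ⨆ k : ℕ, ENNReal.ofReal (2 * ρ (k + M))) hr
    (fun M i => Icc (i.2.1 - ρ (i.1 + M)) (i.2.1 + ρ (i.1 + M))) ?_ ?_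
  · have hle : ∀ M : ℕ, (∑' i : (k : ℕ) × {c // c ∈ N (k + M)},
        Metric.ediam (Icc (i.2.1 - ρ (i.1 + M)) (i.2.1 + ρ (i.1 + M))) ^ σ) ≤ ∑' k, F (k + M) := by
      intro M
      rw [ENNReal.tsum_sigma']
      refine ENNReal.tsum_le_tsum fun k => ?_
      rw [tsum_fintype]
      have h3 : ∀ c : {c // c ∈ N (k + M)},
          Metric.ediam (Icc (c.1 - ρ (k + M)) (c.1 + ρ (k + M))) ^ σ =
            ENNReal.ofReal ((2 * ρ (k + M)) ^ σ) := by
        intro c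
        rw [Real.ediam_Icc, show c.1 + ρ (k + M) - (c.1 - ρ (k + M)) = 2 * ρ (k + M) by ring,
          ENNReal.ofReal_rpow_of_nonneg (by have := hρ0 (k + M); positivity) hσ.le]
      simp only [h3]
      rw [Finset.sum_const, hF]
      simp only [nsmul_eq_mul]
      rw [ENNReal.ofReal_mul (by positivity), ENNReal.ofReal_natCast]
      simp
    have hten : Tendsto (fun M : ℕ => ∑' i : (k : ℕ) × {c // c ∈ N (k + M)},
        Metric.ediam (Icc (i.2.1 - ρ (i.1 + M)) (i.2.1 + ρ (i.1 + M))) ^ σ) atTop (𝓝 0) :=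
      tendsto_of_tendsto_of_tendsto_of_le_of_le tendsto_const_nhds hG (fun _ => zero_le) hle
    rw [hten.liminf_eq] at key
    exact le_antisymm key (zero_le)
  · refine Eventually.of_forall fun M i => ?_
    rw [Real.ediam_Icc, show i.2.1 + ρ (i.1 + M) - (i.2.1 - ρ (i.1 + M)) = 2 * ρ (i.1 + M) by ring]
    exact le_iSup (fun k : ℕ => ENNReal.ofReal (2 * ρ (k + M))) i.1
  · refine Eventually.of_forall fun M α hα => ?_
    obtain ⟨m, hm, c, hc, hac⟩ := (frequently_atTop.1 (hS α hα)) M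
    obtain ⟨k, rfl⟩ := Nat.exists_eq_add_of_le' hm
    refine mem_iUnion.2 ⟨⟨k, c, hc⟩, ?_⟩
    rw [abs_le] at hac
    exact ⟨by linarith [hac.1], by linarith [hac.2]⟩

/-- limsup sets of balls with varying radii -/
theorem limsup_null' {σ : ℝ} (hσ : 0 < σ) (N : ℕ → Finset ℕ) (cen ρ : ℕ → ℕ → ℝ) (R : ℕ → ℝ)
    (hρ0 : ∀ m n, 0 ≤ ρ m n) (hρR : ∀ m, ∀ n ∈ N m, ρ m n ≤ R m) (hR : Tendsto R atTop (𝓝 0))
    (hsum : Summable fun m => ∑ n ∈ N m, (2 * ρ m n) ^ σ) (S : Set ℝ)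
    (hS : ∀ α ∈ S, ∃ᶠ m in atTop, ∃ n ∈ N m, |α - cen m n| ≤ ρ m n) :
    μH[σ] S = 0 := by
  set F : ℕ → ℝ≥0∞ := fun m => ENNReal.ofReal (∑ n ∈ N m, (2 * ρ m n) ^ σ) with hF
  have hnn : ∀ m n, 0 ≤ (2 * ρ m n) ^ σ := fun m n => by
    have := hρ0 m n
    positivity
  have hFsum : ∑' m, F m ≠ ∞ := by
    rw [hF, ← ENNReal.ofReal_tsum_of_nonneg (fun m => Finset.sum_nonneg fun n _ => hnn m n) hsum]
    exact ENNReal.ofReal_ne_top
  have hG := ENNReal.tendsto_sum_nat_add F hFsum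
  have hr : Tendsto (fun M : ℕ => ⨆ k : ℕ, ENNReal.ofReal (2 * R (k + M))) atTop (𝓝 0) := by
    rw [ENNReal.tendsto_nhds_zero]
    intro ε hε
    obtain ⟨δ, hδ, hδε⟩ : ∃ δ : ℝ, 0 < δ ∧ ENNReal.ofReal δ ≤ ε := by
      rcases eq_or_ne ε ∞ with h | h
      · exact ⟨1, one_pos, by rw [h]; exact le_top⟩
      · exact ⟨ε.toReal, ENNReal.toReal_pos hε.ne' h, by rw [ENNReal.ofReal_toReal h]⟩
    have h2 : ∀ᶠ m in atTop, R m < δ / 2 := hR.eventually_lt_const (by positivity)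
    obtain ⟨m₀, hm₀⟩ := eventually_atTop.1 h2
    filter_upwards [eventually_ge_atTop m₀] with M hM
    refine iSup_le fun k => le_trans (ENNReal.ofReal_le_ofReal ?_) hδε
    have := hm₀ (k + M) (by omega)
    linarith
  have key := Measure.hausdorffMeasure_le_liminf_tsum (X := ℝ) (β := ℕ)
    (ι := fun M => (k : ℕ) × {n // n ∈ N (k + M)}) σ S (l := atTop)
    (fun M => ⨆ k : ℕ, ENNReal.ofReal (2 * R (k + M))) hr
    (fun M i => Icc (cen (i.1 + M) i.2.1 - ρ (i.1 + M) i.2.1)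
      (cen (i.1 + M) i.2.1 + ρ (i.1 + M) i.2.1)) ?_ ?_
  · have hle : ∀ M : ℕ, (∑' i : (k : ℕ) × {n // n ∈ N (k + M)},
        Metric.ediam (Icc (cen (i.1 + M) i.2.1 - ρ (i.1 + M) i.2.1)
          (cen (i.1 + M) i.2.1 + ρ (i.1 + M) i.2.1)) ^ σ) ≤ ∑' k, F (k + M) := by
      intro M
      rw [ENNReal.tsum_sigma']
      refine ENNReal.tsum_le_tsum fun k => ?_
      rw [tsum_fintype]
      have h3 : ∀ n : {n // n ∈ N (k + M)},
          Metric.ediam (Icc (cen (k + M) n.1 - ρ (k + M) n.1) (cen (k + M) n.1 + ρ (k + M) n.1)) ^ σ =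
            ENNReal.ofReal ((2 * ρ (k + M) n.1) ^ σ) := by
        intro n
        rw [Real.ediam_Icc, show cen (k + M) n.1 + ρ (k + M) n.1 - (cen (k + M) n.1 - ρ (k + M) n.1)
          = 2 * ρ (k + M) n.1 by ring,
          ENNReal.ofReal_rpow_of_nonneg (by have := hρ0 (k + M) n.1; positivity) hσ.le]
      simp only [h3]
      rw [hF]
      simp only
      rw [ENNReal.ofReal_sum_of_nonneg (fun n _ => hnn (k + M) n)]
      exact (Finset.sum_coe_sort (N (k + M)) (fun n => ENNReal.ofReal ((2 * ρ (k + M) n) ^ σ))).le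
    have hten : Tendsto (fun M : ℕ => ∑' i : (k : ℕ) × {n // n ∈ N (k + M)},
        Metric.ediam (Icc (cen (i.1 + M) i.2.1 - ρ (i.1 + M) i.2.1)
          (cen (i.1 + M) i.2.1 + ρ (i.1 + M) i.2.1)) ^ σ) atTop (𝓝 0) :=
      tendsto_of_tendsto_of_tendsto_of_le_of_le tendsto_const_nhds hG (fun _ => zero_le) hle
    rw [hten.liminf_eq] at key
    exact le_antisymm key (zero_le)
  · refine Eventually.of_forall fun M i => ?_
    rw [Real.ediam_Icc, show cen (i.1 + M) i.2.1 + ρ (i.1 + M) i.2.1 -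
      (cen (i.1 + M) i.2.1 - ρ (i.1 + M) i.2.1) = 2 * ρ (i.1 + M) i.2.1 by ring]
    refine le_trans (ENNReal.ofReal_le_ofReal ?_) (le_iSup (fun k : ℕ => ENNReal.ofReal (2 * R (k + M))) i.1)
    have := hρR (i.1 + M) i.2.1 i.2.2
    linarith
  · refine Eventually.of_forall fun M α hα => ?_
    obtain ⟨m, hm, n, hn, hac⟩ := (frequently_atTop.1 (hS α hα)) M
    obtain ⟨k, rfl⟩ := Nat.exists_eq_add_of_le' hm
    refine mem_iUnion.2 ⟨⟨k, n, hn⟩, ?_⟩
    rw [abs_le] at hac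
    exact ⟨by linarith [hac.1], by linarith [hac.2]⟩

/-- the `n`-th prime is at most `C n^(1+ε)`: `p_n^(1-ε) ≤ C (n+1)` -/
theorem nth_prime_rpow {ε : ℝ} (hε : 0 < ε) (n : ℕ) :
    (Nat.nth Nat.Prime n : ℝ) ^ (1 - ε) ≤ 20 / ε * ((n : ℝ) + 1) := by
  set P : ℕ := Nat.nth Nat.Prime n with hP
  have hpr : P.Prime := Nat.prime_nth_prime n
  have hP2 : (2 : ℝ) ≤ P := by exact_mod_cast hpr.two_le
  have hP0 : (0 : ℝ) < P := by linarith
  have hpi : (Nat.primeCounting P : ℝ) = n + 1 := by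
    have h1 : Nat.primeCounting P = n + 1 := by
      rw [Nat.primeCounting, Nat.primeCounting', hP, Nat.count_succ,
        Nat.count_nth_of_infinite Nat.infinite_setOfPred_prime]
      simp [Nat.prime_nth_prime]
    rw [h1]; push_cast; ring
  have h2 := Chebyshev.pi_ge P
  rw [hpi] at h2
  have hlogP : 0 < Real.log P := Real.log_pos (by linarith)
  rw [div_le_iff₀ hlogP] at h2
  have h3 : Real.log ((P : ℝ) + 1) ≤ (P : ℝ) / 2 - 1 / 2 + Real.log 2 := by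
    have h4 := Real.log_le_sub_one_of_pos (show (0 : ℝ) < ((P : ℝ) + 1) / 2 by positivity)
    rw [Real.log_div (by positivity) (by norm_num)] at h4
    linarith
  have hl2 := Real.log_two_gt_d9
  have hl2' := Real.log_two_lt_d9
  have h5 : 0.05 * (P : ℝ) ≤ ((n : ℝ) + 1) * Real.log P := by
    nlinarith
  have h6 : Real.log P ≤ (P : ℝ) ^ ε / ε := Real.log_le_rpow_div hP0.le hε
  have h7 : 0.05 * (P : ℝ) ≤ ((n : ℝ) + 1) * ((P : ℝ) ^ ε / ε) :=
    h5.trans (mul_le_mul_of_nonneg_left h6 (by positivity))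
  rw [Real.rpow_sub hP0, Real.rpow_one, div_le_iff₀ (Real.rpow_pos_of_pos hP0 _)]
  have h8 : 20 / ε * ((n : ℝ) + 1) * (P : ℝ) ^ ε = 20 * (((n : ℝ) + 1) * ((P : ℝ) ^ ε / ε)) := by
    field_simp
  rw [h8]
  linarith

theorem nth_ge (n : ℕ) : (n : ℝ) + 1 ≤ Nat.nth Nat.Prime n := by
  have h1 := Nat.add_two_le_nth_prime n
  have h2 : ((n + 2 : ℕ) : ℝ) ≤ Nat.nth Nat.Prime n := by exact_mod_cast h1
  push_cast at h2
  linarith

end Pool.Agent.D0H72.AN
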