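import Pool.Agent.Q240.KS.Stm2
import Pool.Agent.D0H72.AN.Haus

/-!
# The number of large gaps between consecutive primes, from the counting theorem for poor intervals
-/

set_option autoImplicit false

namespace Pool.Agent.D0H72.AN

open Finset Filter Topology
open Pool.Agent.Q240.KS (MAINP pic)

/-- the `n`-th prime, as a real number -/
noncomputable def P (n : ℕ) : ℝ := (Nat.nth Nat.Prime n : ℝ)

/-- the gap after the `n`-th prime is larger than `p_n^θ` -/
def Bad (θ : ℝ) (n : ℕ) : Prop := P n ^ θ < P (n + 1) - P n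

theorem P_lt {m n : ℕ} (h : m < n) : P m < P n := by
  unfold P
  exact_mod_cast Nat.nth_strictMono Nat.infinite_setOfPred_prime h

theorem P_le {m n : ℕ} (h : m ≤ n) : P m ≤ P n := by
  rcases h.lt_or_eq with h | h
  · exact (P_lt h).le
  · rw [h]

theorem P_two (n : ℕ) : 2 ≤ P n := by
  unfold P
  exact_mod_cast (Nat.prime_nth_prime n).two_le

theorem pic_zero (n : ℕ) (h : ℝ) (hh : h < P (n + 1) - P n) (h0 : 0 ≤ h) : pic (P n) h = 0 := by
  unfold pic
  rw [Finset.card_eq_zero, Finset.filter_eq_empty_iff]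
  intro q hq hqp
  rw [Finset.mem_Ioc] at hq
  have h1 : Nat.nth Nat.Prime n < q := by
    have : ⌊P n⌋₊ = Nat.nth Nat.Prime n := by unfold P; exact Nat.floor_natCast _
    omega
  have h2 : (q : ℝ) ≤ P n + h := by
    have := (Nat.le_floor_iff (show 0 ≤ P n + h by have := P_two n; linarith)).1 hq.2
    exact this
  have h3 : Nat.nth Nat.Prime (Nat.count Nat.Prime q) = q := Nat.nth_count hqp
  have h4 : n < Nat.count Nat.Prime q := by
    by_contra hc
    have h6 : Nat.nth Nat.Prime (Nat.count Nat.Prime q) ≤ Nat.nth Nat.Prime n :=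
      Nat.nth_monotone Nat.infinite_setOfPred_prime (not_lt.1 hc)
    omega
  have h5 : P (n + 1) ≤ q := by
    have : Nat.nth Nat.Prime (n + 1) ≤ Nat.nth Nat.Prime (Nat.count Nat.Prime q) :=
      Nat.nth_monotone Nat.infinite_setOfPred_prime (show n + 1 ≤ Nat.count Nat.Prime q from h4)
    rw [h3] at this
    unfold P
    exact_mod_cast this
  linarith

/-- one scale -/
theorem scale {lam0 e0 : ℝ} (hl : 1 / 10 ≤ lam0) (hl1 : lam0 < 1) (h : MAINP lam0 e0) :
    ∃ η Y₁ : ℝ, 0 < η ∧ η < 1 - lam0 ∧ ∀ Y : ℝ, Y₁ ≤ Y → ∀ S : Finset ℕ,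
      (∀ n ∈ S, Bad (1 - lam0 - η) n ∧ |Real.log (P n) - Y| ≤ 2 / 5) →
      (S.card : ℝ) ≤ Real.exp ((e0 - η) * Y) := by
  obtain ⟨c, η₀, Y₀, hc, hη₀, H⟩ := h
  set η : ℝ := min (η₀ / 2) ((1 - lam0) / 2) with hη
  have hη1 : 0 < η := lt_min (by positivity) (by linarith)
  have hη2 : η ≤ η₀ / 2 := min_le_left _ _
  have hη3 : η ≤ (1 - lam0) / 2 := min_le_right _ _
  refine ⟨η, max (max Y₀ 1) (2 / η₀), hη1, by linarith, fun Y hY S hS => ?_⟩
  have hY0 : Y₀ ≤ Y := le_trans (le_trans (le_max_left _ _) (le_max_left _ _)) hY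
  have hY1 : 1 ≤ Y := le_trans (le_trans (le_max_right _ _) (le_max_left _ _)) hY
  have hY2 : 2 / η₀ ≤ Y := le_trans (le_max_right _ _) hY
  rw [div_le_iff₀ hη₀] at hY2
  have hθ0 : 0 < 1 - lam0 - η := by linarith
  have hθ1 : 1 - lam0 - η ≤ 1 := by linarith
  set h : ℝ := Real.exp ((1 - lam0 - η₀) * Y) with hh
  have hh0 : 0 < h := Real.exp_pos _
  have key : ∀ n ∈ S, h < P (n + 1) - P n := by
    intro n hn
    obtain ⟨h1, h2⟩ := hS n hn
    refine lt_of_le_of_lt ?_ h1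
    have hP0 : 0 < P n := by have := P_two n; linarith
    rw [Real.rpow_def_of_pos hP0, hh]
    apply Real.exp_le_exp.2
    rw [abs_le] at h2
    have h3 : Y - 2 / 5 ≤ Real.log (P n) := by linarith [h2.1]
    have h4 : (1 - lam0 - η) * (Y - 2 / 5) ≤ (1 - lam0 - η) * Real.log (P n) :=
      mul_le_mul_of_nonneg_left h3 hθ0.le
    nlinarith
  have hcard : (S.card : ℝ) = ((S.image P).card : ℝ) := by
    rw [Finset.card_image_of_injective]
    intro a b hab
    rcases lt_trichotomy a b with h | h | h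
    · exact absurd hab (P_lt h).ne
    · exact h
    · exact absurd hab (P_lt h).ne'
  rw [hcard]
  refine le_trans (H Y hY0 h le_rfl ?_ (S.image P) ?_ ?_) ?_
  · rw [hh]
    apply Real.exp_le_exp.2
    nlinarith
  · intro y hy
    obtain ⟨n, hn, rfl⟩ := Finset.mem_image.1 hy
    refine ⟨by have := P_two n; linarith, (hS n hn).2, ?_⟩
    rw [pic_zero n h (key n hn) hh0.le]
    have : 0 < c * h / Y := by positivity
    simpa using this
  · intro y hy y' hy' hne
    obtain ⟨n, hn, rfl⟩ := Finset.mem_image.1 hy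
    obtain ⟨n', hn', rfl⟩ := Finset.mem_image.1 hy'
    rcases lt_trichotomy n n' with h1 | h1 | h1
    · have h2 := P_le (show n + 1 ≤ n' from h1)
      have h3 := key n hn
      rw [abs_sub_comm, abs_of_nonneg (by linarith)]
      linarith
    · exact absurd (by rw [h1]) hne
    · have h2 := P_le (show n' + 1 ≤ n from h1)
      have h3 := key n' hn'
      rw [abs_of_nonneg (by linarith)]
      linarith
  · apply Real.exp_le_exp.2
    nlinarith

/-- counting the bad indices by the size of the primes -/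
theorem count_x {lam0 e0 : ℝ} (hl : 1 / 10 ≤ lam0) (hl1 : lam0 < 1) (he : 0 < e0) (h : MAINP lam0 e0) :
    ∃ η C : ℝ, 0 < η ∧ η < 1 - lam0 ∧ η < e0 ∧ 0 < C ∧ ∀ L : ℝ, 0 ≤ L → ∀ S : Finset ℕ,
      (∀ n ∈ S, Bad (1 - lam0 - η) n ∧ Real.log (P n) ≤ L) →
      (S.card : ℝ) ≤ C * Real.exp ((e0 - η) * L) := by
  obtain ⟨η₀, Y₁, hη₀, hη₁, H⟩ := scale hl hl1 h
  set Y₂ : ℝ := max Y₁ 1 with hY₂
  have hY21 : 1 ≤ Y₂ := le_max_right _ _
  set η₁ : ℝ := min η₀ e0 with hη₁d
  have h10 : 0 < η₁ := lt_min hη₀ he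
  have h11 : η₁ ≤ η₀ := min_le_left _ _
  have h12 : η₁ ≤ e0 := min_le_right _ _
  -- the final saving is `η₁ / 2`
  set C₁ : ℝ := Real.exp (Y₂ + 1) + 1 with hC₁
  set C₂ : ℝ := (4 + 8 / η₁) * Real.exp ((e0) * 2) with hC₂
  have hC₁0 : 0 < C₁ := by positivity
  have hC₂0 : 0 < C₂ := by positivity
  refine ⟨η₁ / 2, C₁ + C₂, by positivity, by linarith, by linarith, by positivity,
    fun L hL S hS => ?_⟩
  classical
  -- the grid
  set J : ℕ := ⌊L * (5 / 4)⌋₊ + 2 with hJ
  set A : Finset ℕ := S.filter (fun n => P n ≤ Real.exp (Y₂ + 1)) with hA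
  set T : ℕ → Finset ℕ := fun j => S.filter (fun n => Y₂ ≤ 4 / 5 * (j : ℝ) ∧
    |Real.log (P n) - 4 / 5 * (j : ℝ)| ≤ 2 / 5) with hT
  have hcov : S ⊆ A ∪ (Finset.range (J + 1)).biUnion T := by
    intro n hn
    rw [Finset.mem_union]
    by_cases hc : P n ≤ Real.exp (Y₂ + 1)
    · exact Or.inl (Finset.mem_filter.2 ⟨hn, hc⟩)
    · right
      rw [Finset.mem_biUnion]
      have hP0 : 0 < P n := by have := P_two n; linarith
      have h1 : Y₂ + 1 < Real.log (P n) := by
        rw [Real.lt_log_iff_exp_lt hP0]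
        exact not_le.1 hc
      have h2 := (hS n hn).2
      set x : ℝ := Real.log (P n) * (5 / 4) + 1 / 2 with hx
      have hx0 : 0 ≤ x := by
        have : 0 ≤ Real.log (P n) := by linarith
        positivity
      refine ⟨⌊x⌋₊, ?_, ?_⟩
      · rw [Finset.mem_range, hJ]
        have h3 : ⌊x⌋₊ ≤ ⌊L * (5 / 4) + 1⌋₊ := Nat.floor_le_floor (by rw [hx]; linarith)
        have h4 : ⌊L * (5 / 4) + 1⌋₊ = ⌊L * (5 / 4)⌋₊ + 1 := by
          rw [Nat.floor_add_one (by positivity)]
        omega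
      · have h5 := Nat.floor_le hx0
        have h6 := Nat.lt_floor_add_one x
        refine Finset.mem_filter.2 ⟨hn, ?_, ?_⟩
        · have : x - 1 < ⌊x⌋₊ := by linarith
          rw [hx] at this h5
          nlinarith
        · rw [abs_le]
          rw [hx] at h5 h6
          constructor <;> linarith
  have hAc : (A.card : ℝ) ≤ C₁ := by
    have h1 : A ⊆ Finset.range (⌊Real.exp (Y₂ + 1)⌋₊ + 1) := by
      intro n hn
      rw [Finset.mem_filter] at hn
      rw [Finset.mem_range]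
      have h2 : (n : ℝ) ≤ Real.exp (Y₂ + 1) := by
        have h3 := nth_ge n
        have h4 := hn.2
        unfold P at h4
        linarith
      have := Nat.le_floor h2
      omega
    have h2 := Finset.card_le_card h1
    rw [Finset.card_range] at h2
    have h3 : (A.card : ℝ) ≤ (⌊Real.exp (Y₂ + 1)⌋₊ : ℝ) + 1 := by exact_mod_cast h2
    have h4 := Nat.floor_le (Real.exp_pos (Y₂ + 1)).le
    rw [hC₁]
    linarith
  have hTc : ∀ j ∈ Finset.range (J + 1), ((T j).card : ℝ) ≤ Real.exp ((e0 - η₁) * (L + 2)) := by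
    intro j hj
    rw [Finset.mem_range, hJ] at hj
    by_cases hY : Y₂ ≤ 4 / 5 * (j : ℝ)
    · refine le_trans (H (4 / 5 * (j : ℝ)) (le_trans (le_max_left _ _) hY) (T j) ?_) ?_
      · intro n hn
        rw [Finset.mem_filter] at hn
        refine ⟨?_, hn.2.2⟩
        have h1 := (hS n hn.1).1
        unfold Bad at h1 ⊢
        refine lt_of_le_of_lt (Real.rpow_le_rpow_of_exponent_le ?_ ?_) h1
        · have := P_two n; linarith
        · linarith
      · apply Real.exp_le_exp.2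
        have hj' : (j : ℝ) ≤ L * (5 / 4) + 2 := by
          have h1 : (j : ℝ) ≤ ((⌊L * (5 / 4)⌋₊ + 2 : ℕ) : ℝ) := by exact_mod_cast (by omega)
          have h2 := Nat.floor_le (show 0 ≤ L * (5 / 4) by positivity)
          push_cast at h1
          linarith
        have h3 : (4 / 5 * (j : ℝ)) ≤ L + 2 := by linarith
        have h4 : 0 ≤ 4 / 5 * (j : ℝ) := by positivity
        calc (e0 - η₀) * (4 / 5 * (j : ℝ)) ≤ (e0 - η₁) * (4 / 5 * (j : ℝ)) :=
              mul_le_mul_of_nonneg_right (by linarith) h4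
          _ ≤ (e0 - η₁) * (L + 2) := mul_le_mul_of_nonneg_left h3 (by linarith)
    · have : T j = ∅ := by
        rw [Finset.filter_eq_empty_iff]
        intro n _ hc
        exact hY hc.1
      rw [this]
      simp only [Finset.card_empty, Nat.cast_zero]
      positivity
  have hsum : (((Finset.range (J + 1)).biUnion T).card : ℝ) ≤
      (J + 1) * Real.exp ((e0 - η₁) * (L + 2)) := by
    have h1 : (((Finset.range (J + 1)).biUnion T).card : ℝ) ≤
        ∑ j ∈ Finset.range (J + 1), ((T j).card : ℝ) := by exact_mod_cast Finset.card_biUnion_le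
    refine h1.trans ((Finset.sum_le_sum hTc).trans ?_)
    rw [Finset.sum_const, Finset.card_range, nsmul_eq_mul]
    push_cast
    exact le_rfl
  have hJb : ((J : ℝ) + 1) ≤ (4 + 8 / η₁) * Real.exp (η₁ / 2 * L) := by
    have h1 : (J : ℝ) ≤ L * (5 / 4) + 2 := by
      rw [hJ]
      push_cast
      have := Nat.floor_le (show 0 ≤ L * (5 / 4) by positivity)
      linarith
    have h2 : η₁ / 2 * L + 1 ≤ Real.exp (η₁ / 2 * L) := Real.add_one_le_exp _
    have h3 : (4 + 8 / η₁) * (η₁ / 2 * L + 1) ≤ (4 + 8 / η₁) * Real.exp (η₁ / 2 * L) :=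
      mul_le_mul_of_nonneg_left h2 (by positivity)
    have h4 : (4 + 8 / η₁) * (η₁ / 2 * L + 1) = 2 * η₁ * L + 4 * L + 4 + 8 / η₁ := by
      field_simp
      ring
    have h5 : 0 ≤ 2 * η₁ * L := by positivity
    have h6 : 0 < 8 / η₁ := by positivity
    linarith
  have hfin : ((J : ℝ) + 1) * Real.exp ((e0 - η₁) * (L + 2)) ≤ C₂ * Real.exp ((e0 - η₁ / 2) * L) := by
    have h1 : Real.exp ((e0 - η₁) * (L + 2)) ≤ Real.exp (e0 * 2) * Real.exp ((e0 - η₁) * L) := by
      rw [← Real.exp_add]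
      apply Real.exp_le_exp.2
      nlinarith
    calc ((J : ℝ) + 1) * Real.exp ((e0 - η₁) * (L + 2))
        ≤ ((4 + 8 / η₁) * Real.exp (η₁ / 2 * L)) * (Real.exp (e0 * 2) * Real.exp ((e0 - η₁) * L)) := by
          gcongr
      _ = C₂ * Real.exp ((e0 - η₁ / 2) * L) := by
          rw [hC₂, show (e0 - η₁ / 2) * L = η₁ / 2 * L + (e0 - η₁) * L by ring, Real.exp_add]
          ring
  have h1 : (S.card : ℝ) ≤ A.card + ((Finset.range (J + 1)).biUnion T).card := by
    exact_mod_cast (Finset.card_le_card hcov).trans (Finset.card_union_le _ _)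
  have hE1 : 1 ≤ Real.exp ((e0 - η₁ / 2) * L) := by
    apply Real.one_le_exp
    have : 0 ≤ e0 - η₁ / 2 := by linarith
    positivity
  calc (S.card : ℝ) ≤ C₁ + C₂ * Real.exp ((e0 - η₁ / 2) * L) := by linarith
    _ ≤ (C₁ + C₂) * Real.exp ((e0 - η₁ / 2) * L) := by nlinarith

/-- counting the bad indices by the size of the primes, second form -/
theorem count_p {lam0 e0 : ℝ} (hl : 1 / 10 ≤ lam0) (hl1 : lam0 < 1) (he : 0 < e0) (h : MAINP lam0 e0) :
    ∃ η C : ℝ, 0 < η ∧ η < 1 - lam0 ∧ 0 < C ∧ ∀ N : ℝ, 1 ≤ N → ∀ S : Finset ℕ,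
      (∀ n ∈ S, Bad (1 - lam0 - η) n ∧ P n ≤ N) → (S.card : ℝ) ≤ C * N ^ e0 := by
  obtain ⟨η, C, hη, hη1, hη2, hC, H⟩ := count_x hl hl1 he h
  refine ⟨η, C, hη, hη1, hC, fun N hN S hS => ?_⟩
  have hN0 : 0 < N := by linarith
  have hlog := Real.log_nonneg hN
  refine (H (Real.log N) hlog S fun n hn => ⟨(hS n hn).1, ?_⟩).trans ?_
  · have hP0 : 0 < P n := by have := P_two n; linarith
    exact Real.log_le_log hP0 (hS n hn).2
  · have h1 : Real.exp ((e0 - η) * Real.log N) ≤ N ^ e0 := by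
      rw [Real.rpow_def_of_pos hN0]
      apply Real.exp_le_exp.2
      nlinarith
    gcongr

/-- counting the bad indices -/
theorem count_n {lam0 e0 : ℝ} (hl : 1 / 10 ≤ lam0) (hl1 : lam0 < 1) (he : 0 < e0) (he1 : e0 ≤ 1)
    (h : MAINP lam0 e0) :
    ∃ η C : ℝ, 0 < η ∧ η < 1 - lam0 ∧ 0 < C ∧ ∀ N : ℝ, 1 ≤ N → ∀ S : Finset ℕ,
      (∀ n ∈ S, Bad (1 - lam0 - η) n ∧ (n : ℝ) ≤ N) → (S.card : ℝ) ≤ C * N ^ e0 := by
  obtain ⟨η, C, hη, hη1, hη2, hC, H⟩ := count_x hl hl1 he h
  have hη3 : η < 1 := by linarith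
  set D : ℝ := 40 / η * 2 with hD
  have hD0 : 0 < D := by positivity
  have hD1 : 1 ≤ D := by
    rw [hD, div_mul_eq_mul_div, le_div_iff₀ hη]
    linarith
  refine ⟨η, C * D ^ e0, hη, hη1, by positivity, fun N hN S hS => ?_⟩
  have hN0 : 0 < N := by linarith
  -- the size of the primes
  have hp : ∀ n ∈ S, P n ^ (1 - η / 2) ≤ D * N := by
    intro n hn
    have h1 := nth_prime_rpow (show 0 < η / 2 by positivity) n
    have h2 := (hS n hn).2
    have h3 : (n : ℝ) + 1 ≤ 2 * N := by linarith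
    calc P n ^ (1 - η / 2) ≤ 20 / (η / 2) * ((n : ℝ) + 1) := h1
      _ ≤ 20 / (η / 2) * (2 * N) := by gcongr
      _ = D * N := by rw [hD]; field_simp; ring
  set L : ℝ := Real.log (D * N) / (1 - η / 2) with hL
  have hDN : 1 ≤ D * N := by nlinarith
  have h12 : 0 < 1 - η / 2 := by linarith
  have hL0 : 0 ≤ L := div_nonneg (Real.log_nonneg hDN) h12.le
  refine le_trans (H L hL0 S fun n hn => ⟨(hS n hn).1, ?_⟩) ?_
  · have hP0 : 0 < P n := by have := P_two n; linarith
    rw [hL, le_div_iff₀ h12, mul_comm, ← Real.log_rpow hP0]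
    exact Real.log_le_log (Real.rpow_pos_of_pos hP0 _) (hp n hn)
  · have h1 : Real.exp ((e0 - η) * L) ≤ (D * N) ^ e0 := by
      rw [Real.rpow_def_of_pos (by linarith)]
      apply Real.exp_le_exp.2
      rw [hL, mul_div_assoc', div_le_iff₀ h12]
      have h3 : (e0 - η) ≤ e0 * (1 - η / 2) := by nlinarith
      have h4 := Real.log_nonneg hDN
      calc (e0 - η) * Real.log (D * N) ≤ e0 * (1 - η / 2) * Real.log (D * N) :=
            mul_le_mul_of_nonneg_right h3 h4
        _ = Real.log (D * N) * e0 * (1 - η / 2) := by ring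
    rw [Real.mul_rpow hD0.le hN0.le] at h1
    calc C * Real.exp ((e0 - η) * L) ≤ C * (D ^ e0 * N ^ e0) := by gcongr
      _ = C * D ^ e0 * N ^ e0 := by ring

end Pool.Agent.D0H72.AN
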