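import Pool.Agent.D0H72.AN.Met

/-!
# Differences of square roots of consecutive primes along generic sequences: assembly
-/

set_option autoImplicit false

namespace Pool.Agent.D0H72.AN

open Finset Filter Topology MeasureTheory
open Pool.Agent.Q240.KS (MAINP pic)
open scoped Classical in
/-- the four statements for the positions `pos` and the pair of exponents `(e, δ)` -/
def Metric (pos : ℕ → ℝ) (e δ : ℝ) : Prop :=
  (∀ (u w : ℕ → ℝ) (K σ κ : ℝ), (∀ m, 1 ≤ u m) → (∀ m, |w m| ≤ K * u m) → 0 < σ → κ < 1 →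
    (Summable fun m => u m ^ (e - σ * (1 - κ))) →
    ∃ E : Set ℝ, μH[σ] E = 0 ∧ ∀ α : ℝ, 0 < α → α ∉ E → ∀ᶠ m in atTop, ∀ n : ℕ,
      |pos n - (α * u m + w m)| ≤ u m ^ κ → D n ≤ ((n : ℝ) + 1) ^ (-δ)) ∧
  (∀ (g : ℕ → ℝ) (σ κ : ℝ), (∀ m, 1 ≤ g m) →
    (∀ t : ℝ, 0 < t → Summable fun m => Real.exp (-(t * g m))) → 0 < σ → 0 ≤ κ → κ < 1 →
    e < σ * (1 - κ) →
    ∃ E : Set ℝ, μH[σ] E = 0 ∧ ∀ α : ℝ, 1 < α → α ∉ E → ∀ᶠ m in atTop, ∀ n : ℕ,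
      |pos n - α ^ g m| ≤ (α ^ g m) ^ κ → D n ≤ ((n : ℝ) + 1) ^ (-δ)) ∧
  (∀ σ κ : ℝ, 0 < σ → 0 ≤ κ → κ < 1 →
    ∃ E : Set ℝ, μH[σ] E = 0 ∧ ∀ c : ℝ, 0 < c → 1 < c * (σ * (1 - κ) - e) → c ∉ E →
      ∀ᶠ m : ℕ in atTop, ∀ n : ℕ, |pos n - (m : ℝ) ^ c| ≤ ((m : ℝ) ^ c) ^ κ →
        D n ≤ ((n : ℝ) + 1) ^ (-δ)) ∧
  (∀ A h : ℝ, 1 ≤ A → 0 ≤ h → ∃ C : ℝ, ∀ s : ℕ → ℕ, Function.Injective s →
    (∀ k, pos (s k) ≤ A * ((k : ℝ) + 1) ^ h) → ∀ K : ℕ,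
    (((Finset.range (K + 1)).filter (fun k => ((s k : ℝ) + 1) ^ (-δ) < D (s k))).card : ℝ) ≤
      C * ((K : ℝ) + 1) ^ (e * h))

theorem metric_of {pos : ℕ → ℝ} {θ e δ : ℝ} (he : 0 < e) (hθ : θ < 1 / 2) (hδ : δ ≤ 1 / 2 - θ) {C : ℝ}
    (hC : 0 < C) (hpos : ∀ n : ℕ, (n : ℝ) ≤ pos n)
    (hcount : ∀ N : ℝ, 1 ≤ N → ∀ S : Finset ℕ, (∀ n ∈ S, Bad θ n ∧ pos n ≤ N) →
      (S.card : ℝ) ≤ C * N ^ e) : Metric pos e δ := by
  classical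
  have hgood : ∀ n : ℕ, ¬ Bad θ n → D n ≤ ((n : ℝ) + 1) ^ (-δ) := by
    intro n hn
    refine (D_le hθ n hn).trans (Real.rpow_le_rpow_of_exponent_le ?_ (by linarith))
    have : (0 : ℝ) ≤ n := Nat.cast_nonneg n
    linarith
  refine ⟨fun u w K σ κ hu hw hσ hκ hs => ?_, fun g σ κ hg1 hg hσ hκ0 hκ hex => ?_,
    fun σ κ hσ hκ0 hκ => ?_, fun A h hA hh => ?_⟩
  · obtain ⟨E, hE, H⟩ := metric he hC hpos hcount u w K σ κ hu hw hσ hκ hs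
    refine ⟨E, hE, fun α hα hαE => ?_⟩
    filter_upwards [H α hα hαE] with m hm n hn
    exact hgood n (hm n hn)
  · obtain ⟨E, hE, H⟩ := powers he hC hpos hcount g σ κ hg1 hg hσ hκ0 hκ hex
    refine ⟨E, hE, fun α hα hαE => ?_⟩
    filter_upwards [H α hα hαE] with m hm n hn
    exact hgood n (hm n hn)
  · obtain ⟨E, hE, H⟩ := piatetski he hC hpos hcount σ κ hσ hκ0 hκ
    refine ⟨E, hE, fun c hc hc1 hcE => ?_⟩
    filter_upwards [H c hc hc1 hcE] with m hm n hn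
    exact hgood n (hm n hn)
  · obtain ⟨C', H⟩ := sparse he hC hcount A h hA hh
    refine ⟨C', fun s hs hsA K => H s hs hsA K _ fun k hk => ?_⟩
    rw [Finset.mem_filter, Finset.mem_range] at hk
    refine ⟨by omega, ?_⟩
    by_contra hb
    have := hgood _ hb
    linarith [hk.2]

/-- the assembly -/
theorem fin (h1 : MAINP (1 / 2) 0.306) (h2 : MAINP (13 / 16) (13 / 16)) :
    ∃ η : ℝ, 0 < η ∧
      (Metric (fun n : ℕ => (n : ℝ)) 0.306 η ∧ Metric (fun n : ℕ => (n : ℝ)) (13 / 16) (5 / 16 + η)) ∧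
      (Metric (fun n : ℕ => ((Nat.nth Nat.Prime n : ℕ) : ℝ)) 0.306 η ∧
        Metric (fun n : ℕ => ((Nat.nth Nat.Prime n : ℕ) : ℝ)) (13 / 16) (5 / 16 + η)) ∧
      ∃ E : Set ℝ, volume E = 0 ∧ ∀ α : ℝ, 0 < α → α ∉ E → ∀ Q : Polynomial ℤ, 2 ≤ Q.natDegree →
        0 < Q.leadingCoeff →
        Tendsto (fun m : ℕ => D ⌊α * ((Q.eval (m : ℤ) : ℤ) : ℝ)⌋₊) atTop (𝓝 0) := by
  obtain ⟨η₁, C₁, hη₁, hη₁', hC₁, H₁⟩ :=
    count_n (by norm_num) (by norm_num) (by norm_num) (by norm_num) h1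
  obtain ⟨η₂, C₂, hη₂, hη₂', hC₂, H₂⟩ :=
    count_n (by norm_num) (by norm_num) (by norm_num) (by norm_num) h2
  obtain ⟨η₃, C₃, hη₃, hη₃', hC₃, H₃⟩ := count_p (by norm_num) (by norm_num) (by norm_num) h1
  obtain ⟨η₄, C₄, hη₄, hη₄', hC₄, H₄⟩ := count_p (by norm_num) (by norm_num) (by norm_num) h2
  obtain ⟨η, hη, e1, e2, e3, e4⟩ : ∃ η : ℝ, 0 < η ∧ η ≤ η₁ ∧ η ≤ η₂ ∧ η ≤ η₃ ∧ η ≤ η₄ :=
    ⟨min (min η₁ η₂) (min η₃ η₄), lt_min (lt_min hη₁ hη₂) (lt_min hη₃ hη₄),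
      (min_le_left _ _).trans (min_le_left _ _), (min_le_left _ _).trans (min_le_right _ _),
      (min_le_right _ _).trans (min_le_left _ _), (min_le_right _ _).trans (min_le_right _ _)⟩
  have hp1 : ∀ n : ℕ, (n : ℝ) ≤ (fun n : ℕ => (n : ℝ)) n := fun n => le_rfl
  have hp2 : ∀ n : ℕ, (n : ℝ) ≤ (fun n : ℕ => ((Nat.nth Nat.Prime n : ℕ) : ℝ)) n := fun n => by
    have := nth_ge n
    simp only
    linarith
  have M₁ : Metric (fun n : ℕ => (n : ℝ)) 0.306 η :=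
    metric_of (by norm_num) (by linarith) (by linarith) hC₁ hp1 H₁
  have M₂ : Metric (fun n : ℕ => (n : ℝ)) (13 / 16) (5 / 16 + η) :=
    metric_of (by norm_num) (by linarith) (by linarith) hC₂ hp1 H₂
  have M₃ : Metric (fun n : ℕ => ((Nat.nth Nat.Prime n : ℕ) : ℝ)) 0.306 η :=
    metric_of (by norm_num) (by linarith) (by linarith) hC₃ hp2 H₃
  have M₄ : Metric (fun n : ℕ => ((Nat.nth Nat.Prime n : ℕ) : ℝ)) (13 / 16) (5 / 16 + η) :=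
    metric_of (by norm_num) (by linarith) (by linarith) hC₄ hp2 H₄
  refine ⟨η, hη, ⟨M₁, M₂⟩, ⟨M₃, M₄⟩, poly hη fun u hu hs => ?_⟩
  obtain ⟨E, hE, H⟩ := M₁.1 u (fun _ => 0) 0 1 0 hu (fun m => by simp) one_pos one_pos
    (by
      have : (0.306 - 1 * (1 - 0) : ℝ) = -0.694 := by norm_num
      rw [this]
      exact hs)
  refine ⟨E, ?_, fun α hα hαE => ?_⟩
  · rwa [hausdorffMeasure_real] at hE
  · filter_upwards [H α hα hαE] with m hm n hn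
    refine hm n ?_
    simpa using hn

end Pool.Agent.D0H72.AN
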