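import Pool.Agent.D0H72.AN.Haus

/-!
# Metric theorems for sparse sets of points
-/

set_option autoImplicit false

namespace Pool.Agent.D0H72.AN

open Set Filter Topology MeasureTheory
open scoped ENNReal NNReal

/-- limsup sets of balls with varying radii -/
theorem glimsup {I : Type} {σ : ℝ} (hσ : 0 < σ) (N : ℕ → Finset I) (cen ρ : ℕ → I → ℝ) (R : ℕ → ℝ)
    (hρ0 : ∀ m n, 0 ≤ ρ m n) (hρR : ∀ m, ∀ n ∈ N m, ρ m n ≤ R m) (hR : Tendsto R atTop (𝓝 0))
    (hsum : Summable fun m => ∑ n ∈ N m, (2 * ρ m n) ^ σ) (S : Set ℝ)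
    (hS : ∀ α ∈ S, ∃ᶠ m in atTop, ∃ n ∈ N m, |α - cen m n| ≤ ρ m n) :
    μH[σ] S = 0 := by
  set F : ℕ → ℝ≥0∞ := fun m => ENNReal.ofReal (∑ n ∈ N m, (2 * ρ m n) ^ σ) with hF
  have hnn : ∀ m n, 0 ≤ (2 * ρ m n) ^ σ := fun m n => by
    have := hρ0 m n
    positivity
  have hFsum : ∑' m, F m ≠ ∞ := by
    rw [hF, ← ENNReal.ofReal_tsum_of_nonneg (fun m => Finset.sum_nonneg fun n _ => hnn m n) hsum]
    exact ENNReal.ofReal_ne_top
  have hG := ENNReal.tendsto_sum_nat_add F hFsum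
  have hr : Tendsto (fun M : ℕ => ⨆ k : ℕ, ENNReal.ofReal (2 * R (k + M))) atTop (𝓝 0) := by
    rw [ENNReal.tendsto_nhds_zero]
    intro ε hε
    obtain ⟨δ, hδ, hδε⟩ : ∃ δ : ℝ, 0 < δ ∧ ENNReal.ofReal δ ≤ ε := by
      rcases eq_or_ne ε ∞ with h | h
      · exact ⟨1, one_pos, by rw [h]; exact le_top⟩
      · exact ⟨ε.toReal, ENNReal.toReal_pos hε.ne' h, by rw [ENNReal.ofReal_toReal h]⟩
    have h2 : ∀ᶠ m in atTop, R m < δ / 2 := hR.eventually_lt_const (by positivity)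
    obtain ⟨m₀, hm₀⟩ := eventually_atTop.1 h2
    filter_upwards [eventually_ge_atTop m₀] with M hM
    refine iSup_le fun k => le_trans (ENNReal.ofReal_le_ofReal ?_) hδε
    have := hm₀ (k + M) (by omega)
    linarith
  have key := Measure.hausdorffMeasure_le_liminf_tsum (X := ℝ) (β := ℕ)
    (ι := fun M => (k : ℕ) × {n // n ∈ N (k + M)}) σ S (l := atTop)
    (fun M => ⨆ k : ℕ, ENNReal.ofReal (2 * R (k + M))) hr
    (fun M i => Icc (cen (i.1 + M) i.2.1 - ρ (i.1 + M) i.2.1)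
      (cen (i.1 + M) i.2.1 + ρ (i.1 + M) i.2.1)) ?_ ?_
  · have hle : ∀ M : ℕ, (∑' i : (k : ℕ) × {n // n ∈ N (k + M)},
        Metric.ediam (Icc (cen (i.1 + M) i.2.1 - ρ (i.1 + M) i.2.1)
          (cen (i.1 + M) i.2.1 + ρ (i.1 + M) i.2.1)) ^ σ) ≤ ∑' k, F (k + M) := by
      intro M
      rw [ENNReal.tsum_sigma']
      refine ENNReal.tsum_le_tsum fun k => ?_
      rw [tsum_fintype]
      have h3 : ∀ n : {n // n ∈ N (k + M)},
          Metric.ediam (Icc (cen (k + M) n.1 - ρ (k + M) n.1) (cen (k + M) n.1 + ρ (k + M) n.1)) ^ σ =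
            ENNReal.ofReal ((2 * ρ (k + M) n.1) ^ σ) := by
        intro n
        rw [Real.ediam_Icc, show cen (k + M) n.1 + ρ (k + M) n.1 - (cen (k + M) n.1 - ρ (k + M) n.1)
          = 2 * ρ (k + M) n.1 by ring,
          ENNReal.ofReal_rpow_of_nonneg (by have := hρ0 (k + M) n.1; positivity) hσ.le]
      simp only [h3]
      rw [hF]
      simp only
      rw [ENNReal.ofReal_sum_of_nonneg (fun n _ => hnn (k + M) n)]
      exact (Finset.sum_coe_sort (N (k + M)) (fun n => ENNReal.ofReal ((2 * ρ (k + M) n) ^ σ))).le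
    have hten : Tendsto (fun M : ℕ => ∑' i : (k : ℕ) × {n // n ∈ N (k + M)},
        Metric.ediam (Icc (cen (i.1 + M) i.2.1 - ρ (i.1 + M) i.2.1)
          (cen (i.1 + M) i.2.1 + ρ (i.1 + M) i.2.1)) ^ σ) atTop (𝓝 0) :=
      tendsto_of_tendsto_of_tendsto_of_le_of_le tendsto_const_nhds hG (fun _ => zero_le) hle
    rw [hten.liminf_eq] at key
    exact le_antisymm key (zero_le)
  · refine Eventually.of_forall fun M i => ?_
    rw [Real.ediam_Icc, show cen (i.1 + M) i.2.1 + ρ (i.1 + M) i.2.1 -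
      (cen (i.1 + M) i.2.1 - ρ (i.1 + M) i.2.1) = 2 * ρ (i.1 + M) i.2.1 by ring]
    refine le_trans (ENNReal.ofReal_le_ofReal ?_) (le_iSup (fun k : ℕ => ENNReal.ofReal (2 * R (k + M))) i.1)
    have := hρR (i.1 + M) i.2.1 i.2.2
    linarith
  · refine Eventually.of_forall fun M α hα => ?_
    obtain ⟨m, hm, n, hn, hac⟩ := (frequently_atTop.1 (hS α hα)) M
    obtain ⟨k, rfl⟩ := Nat.exists_eq_add_of_le' hm
    refine mem_iUnion.2 ⟨⟨k, n, hn⟩, ?_⟩
    rw [abs_le] at hac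
    exact ⟨by linarith [hac.1], by linarith [hac.2]⟩

end Pool.Agent.D0H72.AN

namespace Pool.Agent.D0H72.AN

open Finset Filter Topology MeasureTheory

/-- the sets are finite -/
theorem gfin {I : Type} {e0 C : ℝ} {pos : I → ℝ} {Q : I → Prop}
    (hcount : ∀ N : ℝ, 1 ≤ N → ∀ S : Finset I, (∀ n ∈ S, Q n ∧ pos n ≤ N) →
      (S.card : ℝ) ≤ C * N ^ e0) (X : ℝ) : {n | Q n ∧ pos n ≤ X}.Finite := by
  by_contra hinf
  obtain ⟨k, hk⟩ := exists_nat_gt (C * (max X 1) ^ e0)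
  obtain ⟨t, ht, hc⟩ := Set.Infinite.exists_subset_card_eq (Set.not_infinite.not.1 (not_not.2 hinf) : {n | Q n ∧ pos n ≤ X}.Infinite) k
  have h1 := hcount (max X 1) (le_max_right _ _) t fun n hn => by
    have h2 := ht hn
    exact ⟨h2.1, h2.2.trans (le_max_left _ _)⟩
  rw [hc] at h1
  linarith

/-- the metric statement for sparse sets of bad indices -/
theorem gmetric {I : Type} {e0 C : ℝ} {pos : I → ℝ} {Q : I → Prop} (_he : 0 < e0) (_hC : 0 < C)
    (hpos : ∀ n, 0 ≤ pos n)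
    (hcount : ∀ N : ℝ, 1 ≤ N → ∀ S : Finset I, (∀ n ∈ S, Q n ∧ pos n ≤ N) →
      (S.card : ℝ) ≤ C * N ^ e0)
    (u w : ℕ → ℝ) (K σ κ : ℝ) (hu : ∀ m, 1 ≤ u m) (hw : ∀ m, |w m| ≤ K * u m) (hσ : 0 < σ)
    (hκ : κ < 1) (hsum : Summable fun m => u m ^ (e0 - σ * (1 - κ))) :
    ∃ E : Set ℝ, μH[σ] E = 0 ∧ ∀ α : ℝ, 0 < α → α ∉ E → ∀ᶠ m in atTop, ∀ n : I,
      |pos n - (α * u m + w m)| ≤ u m ^ κ → ¬ Q n := by
  classical
  set E : ℕ → Set ℝ := fun k => {α | 0 < α ∧ α ≤ k + 1 ∧ ∃ᶠ m in atTop, ∃ n : I,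
    |pos n - (α * u m + w m)| ≤ u m ^ κ ∧ Q n} with hE
  have hu0 : ∀ m, 0 < u m := fun m => lt_of_lt_of_le one_pos (hu m)
  have hK : 0 ≤ K := by
    have h1 := (abs_nonneg (w 0)).trans (hw 0)
    by_contra hc
    nlinarith [hu0 0]
  -- the radii tend to zero
  set e : ℝ := e0 - σ * (1 - κ) with hedef
  have hten := hsum.tendsto_atTop_zero
  have he_neg : e < 0 := by
    by_contra hc
    push Not at hc
    have h1 : ∀ m, (1 : ℝ) ≤ u m ^ e := fun m => Real.one_le_rpow (hu m) hc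
    have h2 := ge_of_tendsto' hten h1
    linarith
  have hρ : Tendsto (fun m => u m ^ (κ - 1)) atTop (𝓝 0) := by
    have hp : 0 < (κ - 1) / e := div_pos_of_neg_of_neg (by linarith) he_neg
    have h1 := hten.rpow_const (p := (κ - 1) / e) (Or.inr hp.le)
    rw [Real.zero_rpow hp.ne'] at h1
    refine h1.congr fun m => ?_
    rw [← Real.rpow_mul (hu0 m).le, mul_div_cancel₀ _ he_neg.ne]
  have hnull : ∀ k, μH[σ] (E k) = 0 := by
    intro k
    set B : ℝ := (k : ℝ) + 1 + K + 1 with hB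
    have hB1 : 1 ≤ B := by have : (0 : ℝ) ≤ k := Nat.cast_nonneg k; linarith
    have hB0 : 0 < B := by linarith
    set T : ℕ → Finset I := fun m => (gfin hcount (B * u m)).toFinset with hT
    have hTc : ∀ m, ((T m).card : ℝ) ≤ C * (B * u m) ^ e0 := by
      intro m
      have hBu : 1 ≤ B * u m := by nlinarith [hu m]
      refine hcount (B * u m) hBu (T m) fun n hn => ?_
      rw [hT] at hn
      simp only [Set.Finite.mem_toFinset] at hn
      exact hn
    refine limsup_null hσ (fun m => (T m).image (fun n : I => (pos n - w m) / u m))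
      (fun m => u m ^ (κ - 1)) (fun m => Real.rpow_nonneg (hu0 m).le _) hρ ?_ (E k) ?_
    · refine Summable.of_nonneg_of_le (fun m => ?_) (fun m => ?_)
        (hsum.mul_left (C * B ^ e0 * 2 ^ σ))
      · have := Real.rpow_nonneg (hu0 m).le (κ - 1)
        positivity
      · have h1 : ((((T m).image (fun n : I => (pos n - w m) / u m)).card : ℕ) : ℝ) ≤
            C * (B * u m) ^ e0 := by
          refine le_trans ?_ (hTc m)
          exact_mod_cast Finset.card_image_le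
        have h2 : (2 * u m ^ (κ - 1)) ^ σ = 2 ^ σ * u m ^ (σ * (κ - 1)) := by
          rw [Real.mul_rpow (by norm_num) (Real.rpow_nonneg (hu0 m).le _),
            ← Real.rpow_mul (hu0 m).le, mul_comm (κ - 1) σ]
        rw [h2]
        calc ((((T m).image (fun n : I => (pos n - w m) / u m)).card : ℕ) : ℝ) *
              (2 ^ σ * u m ^ (σ * (κ - 1)))
            ≤ (C * (B * u m) ^ e0) * (2 ^ σ * u m ^ (σ * (κ - 1))) := by
              have := Real.rpow_nonneg (hu0 m).le (σ * (κ - 1))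
              gcongr
          _ = C * B ^ e0 * 2 ^ σ * u m ^ e := by
              rw [Real.mul_rpow hB0.le (hu0 m).le, hedef,
                show e0 - σ * (1 - κ) = e0 + σ * (κ - 1) by ring, Real.rpow_add (hu0 m)]
              ring
    · intro α hα
      obtain ⟨hα0, hαk, hfr⟩ := hα
      refine hfr.mono fun m hm => ?_
      obtain ⟨n, hn, hbad⟩ := hm
      refine ⟨(pos n - w m) / u m, ?_, ?_⟩
      · have hle : pos n ≤ B * u m := by
          rw [abs_le] at hn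
          have h1 : u m ^ κ ≤ u m := by
            calc u m ^ κ ≤ u m ^ (1 : ℝ) := Real.rpow_le_rpow_of_exponent_le (hu m) hκ.le
              _ = u m := Real.rpow_one _
          have h2 := (abs_le.1 (hw m)).2
          have h3 : α * u m ≤ (k + 1) * u m := mul_le_mul_of_nonneg_right hαk (hu0 m).le
          rw [hB]
          nlinarith [hn.2]
        refine Finset.mem_image.2 ⟨n, ?_, rfl⟩
        rw [hT]
        simp only [Set.Finite.mem_toFinset]
        exact ⟨hbad, hle⟩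
      · have h1 : α - (pos n - w m) / u m = -(pos n - (α * u m + w m)) / u m := by
          field_simp [(hu0 m).ne']
          ring
        rw [h1, abs_div, abs_neg, abs_of_pos (hu0 m), div_le_iff₀ (hu0 m)]
        calc |pos n - (α * u m + w m)| ≤ u m ^ κ := hn
          _ = u m ^ (κ - 1) * u m := by
              rw [Real.rpow_sub_one (hu0 m).ne', div_mul_cancel₀ _ (hu0 m).ne']
  refine ⟨⋃ k, E k, measure_iUnion_null hnull, fun α hα hαE => ?_⟩
  by_contra hc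
  apply hαE
  rw [Set.mem_iUnion]
  obtain ⟨k, hk⟩ := exists_nat_ge α
  refine ⟨k, hα, by linarith, ?_⟩
  rw [Filter.not_eventually] at hc
  refine hc.mono fun m hm => ?_
  push Not at hm
  obtain ⟨n, h1, h2⟩ := hm
  exact ⟨n, h1, h2⟩

/-- sums over sparse sets of bad indices -/
theorem gsum {I : Type} {e0 C τ : ℝ} {pos : I → ℝ} {Q : I → Prop} (hC : 0 < C) (hτ : e0 < τ) (hτ0 : 0 < τ)
    (hpos : ∀ n, 0 ≤ pos n)
    (hcount : ∀ N : ℝ, 1 ≤ N → ∀ S : Finset I, (∀ n ∈ S, Q n ∧ pos n ≤ N) →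
      (S.card : ℝ) ≤ C * N ^ e0) :
    ∃ C' : ℝ, 0 < C' ∧ ∀ x : ℝ, 1 ≤ x → ∀ S : Finset I, (∀ n ∈ S, Q n ∧ x ≤ pos n) →
      ∑ n ∈ S, pos n ^ (-τ) ≤ C' * x ^ (e0 - τ) := by
  classical
  set q : ℝ := (2 : ℝ) ^ (e0 - τ) with hq
  have hq0 : 0 < q := Real.rpow_pos_of_pos (by norm_num) _
  have hq1 : q < 1 := Real.rpow_lt_one_of_one_lt_of_neg (by norm_num) (by linarith)
  refine ⟨C * 2 ^ e0 * (1 - q)⁻¹, by
    have : 0 < 1 - q := by linarith
    positivity, fun x hx S hS => ?_⟩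
  have hx0 : 0 < x := by linarith
  have hp0 : ∀ n, 0 ≤ pos n := hpos
  set j : I → ℕ := fun n => Nat.log 2 ⌊pos n / x⌋₊ with hj
  have hjn : ∀ n ∈ S, (2 : ℝ) ^ (j n) * x ≤ pos n ∧ pos n ≤ (2 : ℝ) ^ (j n + 1) * x := by
    intro n hn
    have h1 : 1 ≤ pos n / x := (one_le_div hx0).2 (hS n hn).2
    have h2 : 1 ≤ ⌊pos n / x⌋₊ := Nat.le_floor (by simpa using h1)
    have h3 : 2 ^ (j n) ≤ ⌊pos n / x⌋₊ := Nat.pow_log_le_self 2 (by omega)
    have h4 : ⌊pos n / x⌋₊ < 2 ^ (j n + 1) := Nat.lt_pow_succ_log_self (by norm_num) _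
    have h5 : ((2 : ℝ) ^ (j n)) ≤ pos n / x := by
      refine le_trans ?_ (Nat.floor_le (div_nonneg (hp0 n) hx0.le))
      exact_mod_cast h3
    have h6 : pos n / x ≤ (2 : ℝ) ^ (j n + 1) := by
      have h7 := (Nat.lt_floor_add_one (pos n / x)).le
      refine h7.trans ?_
      exact_mod_cast h4
    exact ⟨(le_div_iff₀ hx0).1 h5, (div_le_iff₀ hx0).1 h6⟩
  rw [← Finset.sum_fiberwise_of_maps_to (t := S.image j) (g := j)
    (fun n hn => Finset.mem_image_of_mem j hn)]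
  have hstep : ∀ i ∈ S.image j, ∑ n ∈ S with j n = i, pos n ^ (-τ) ≤
      C * 2 ^ e0 * x ^ (e0 - τ) * q ^ i := by
    intro i _
    have hxi : 0 < (2 : ℝ) ^ i * x := by positivity
    have h1 : ∀ n ∈ S.filter (fun n => j n = i), pos n ^ (-τ) ≤ ((2 : ℝ) ^ i * x) ^ (-τ) := by
      intro n hn
      rw [Finset.mem_filter] at hn
      have h2 := (hjn n hn.1).1
      rw [hn.2] at h2
      exact Real.rpow_le_rpow_of_nonpos hxi h2 (by linarith)
    have h2 : ((S.filter (fun n => j n = i)).card : ℝ) ≤ C * ((2 : ℝ) ^ (i + 1) * x) ^ e0 := by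
      refine hcount _ ?_ _ fun n hn => ?_
      · have : (1 : ℝ) ≤ 2 ^ (i + 1) := one_le_pow₀ (by norm_num)
        nlinarith
      · rw [Finset.mem_filter] at hn
        refine ⟨(hS n hn.1).1, ?_⟩
        have h3 := (hjn n hn.1).2
        rwa [hn.2] at h3
    refine (Finset.sum_le_card_nsmul _ _ _ h1).trans ?_
    rw [nsmul_eq_mul]
    calc ((S.filter (fun n => j n = i)).card : ℝ) * ((2 : ℝ) ^ i * x) ^ (-τ)
        ≤ (C * ((2 : ℝ) ^ (i + 1) * x) ^ e0) * ((2 : ℝ) ^ i * x) ^ (-τ) :=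
          mul_le_mul_of_nonneg_right h2 (Real.rpow_nonneg hxi.le _)
      _ = C * 2 ^ e0 * x ^ (e0 - τ) * q ^ i := by
          have hqi : q ^ i = (2 : ℝ) ^ ((e0 - τ) * (i : ℝ)) := by
            rw [hq, ← Real.rpow_natCast, ← Real.rpow_mul (by norm_num)]
          have h2i : (2 : ℝ) ^ i = (2 : ℝ) ^ (i : ℝ) := (Real.rpow_natCast 2 i).symm
          have h5 : ((2 : ℝ) ^ i * x) ^ e0 * ((2 : ℝ) ^ i * x) ^ (-τ) =
              x ^ (e0 - τ) * 2 ^ ((e0 - τ) * (i : ℝ)) := by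
            rw [← Real.rpow_add hxi, Real.mul_rpow (by positivity) hx0.le, h2i,
              ← Real.rpow_mul (by norm_num), ← sub_eq_add_neg, mul_comm (i : ℝ), mul_comm]
          have h6 : ((2 : ℝ) ^ (i + 1) * x) ^ e0 = 2 ^ e0 * ((2 : ℝ) ^ i * x) ^ e0 := by
            rw [show (2 : ℝ) ^ (i + 1) * x = 2 * ((2 : ℝ) ^ i * x) by ring,
              Real.mul_rpow (by norm_num) hxi.le]
          rw [h6, hqi]
          calc C * (2 ^ e0 * ((2 : ℝ) ^ i * x) ^ e0) * ((2 : ℝ) ^ i * x) ^ (-τ)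
              = C * 2 ^ e0 * (((2 : ℝ) ^ i * x) ^ e0 * ((2 : ℝ) ^ i * x) ^ (-τ)) := by ring
            _ = C * 2 ^ e0 * x ^ (e0 - τ) * 2 ^ ((e0 - τ) * (i : ℝ)) := by rw [h5]; ring
  refine (Finset.sum_le_sum hstep).trans ?_
  rw [← Finset.mul_sum]
  have hgeo : ∑ i ∈ S.image j, q ^ i ≤ (1 - q)⁻¹ := by
    rw [← tsum_geometric_of_lt_one hq0.le hq1]
    exact (summable_geometric_of_lt_one hq0.le hq1).sum_le_tsum _ (fun i _ => by positivity)
  calc C * 2 ^ e0 * x ^ (e0 - τ) * ∑ i ∈ S.image j, q ^ i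
      ≤ C * 2 ^ e0 * x ^ (e0 - τ) * (1 - q)⁻¹ := by
        have := Real.rpow_nonneg hx0.le (e0 - τ)
        gcongr
    _ = C * 2 ^ e0 * (1 - q)⁻¹ * x ^ (e0 - τ) := by ring

/-- the metric statement for general families -/
theorem gmetric2 {I : Type} {e0 C : ℝ} {pos : I → ℝ} {Q : I → Prop} (_he : 0 < e0) (hC : 0 < C)
    (hpos : ∀ n, 0 ≤ pos n)
    (hcount : ∀ N : ℝ, 1 ≤ N → ∀ S : Finset I, (∀ n ∈ S, Q n ∧ pos n ≤ N) →
      (S.card : ℝ) ≤ C * N ^ e0)
    (F : ℕ → ℝ → ℝ) (v : ℕ → ℝ) (a b c σ κ : ℝ) (hc : 0 < c)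
    (hv1 : ∀ m, 1 ≤ v m) (hv : ∀ m, ∀ α ∈ Set.Icc a b, v m ≤ F m α)
    (hF : ∀ m, ∀ α ∈ Set.Icc a b, ∀ β ∈ Set.Icc a b, α ≤ β → c * (β - α) * F m α ≤ F m β - F m α)
    (hσ : 0 < σ) (hκ0 : 0 ≤ κ) (hκ : κ < 1)
    (hsum : Summable fun m => v m ^ (e0 - σ * (1 - κ))) :
    μH[σ] {α | α ∈ Set.Icc a b ∧ ∃ᶠ m in atTop, ∃ n : I, |pos n - F m α| ≤ F m α ^ κ ∧ Q n} = 0 := by
  classical
  rcases lt_or_ge b a with hab | hab
  · have : {α | α ∈ Set.Icc a b ∧ ∃ᶠ m in atTop, ∃ n : I, |pos n - F m α| ≤ F m α ^ κ ∧ Q n} = ∅ := by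
      ext α
      simp only [Set.mem_ofPred_eq, Set.mem_Icc, Set.mem_empty_iff_false, iff_false]
      rintro ⟨⟨h1, h2⟩, -⟩
      linarith
    rw [this]
    exact measure_empty
  have hv0 : ∀ m, 0 < v m := fun m => lt_of_lt_of_le one_pos (hv1 m)
  set e : ℝ := e0 - σ * (1 - κ) with hedef
  have hten := hsum.tendsto_atTop_zero
  have he_neg : e < 0 := by
    by_contra hcc
    push Not at hcc
    have h1 : ∀ m, (1 : ℝ) ≤ v m ^ e := fun m => Real.one_le_rpow (hv1 m) hcc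
    have h2 := ge_of_tendsto' hten h1
    linarith
  have hρ : Tendsto (fun m => v m ^ (κ - 1)) atTop (𝓝 0) := by
    have hp : 0 < (κ - 1) / e := div_pos_of_neg_of_neg (by linarith) he_neg
    have h1 := hten.rpow_const (p := (κ - 1) / e) (Or.inr hp.le)
    rw [Real.zero_rpow hp.ne'] at h1
    refine h1.congr fun m => ?_
    rw [← Real.rpow_mul (hv0 m).le, mul_div_cancel₀ _ he_neg.ne]
  set τ : ℝ := σ * (1 - κ) with hτdef
  have hτ0 : 0 < τ := mul_pos hσ (by linarith)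
  obtain ⟨C', hC', hsb⟩ := gsum hC (show e0 < τ by linarith) hτ0 hpos hcount
  set A : ℕ → I → Set ℝ := fun m n => {α | α ∈ Set.Icc a b ∧ |pos n - F m α| ≤ F m α ^ κ} with hA
  set cen : ℕ → I → ℝ := fun m n => if h : (A m n).Nonempty then h.some else 0 with hcen
  set T : ℕ → Finset I := fun m => if v m ^ (κ - 1) ≤ 1 / 2 then
    (gfin hcount (2 * F m b)).toFinset.filter (fun n => v m / 2 ≤ pos n) else ∅ with hT
  have hv2 : ∀ m, v m ^ (κ - 1) ≤ 1 / 2 → 2 ≤ v m := by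
    intro m hm
    have h1 : v m ^ (κ - 1) * v m ^ (1 - κ) = 1 := by
      rw [← Real.rpow_add (hv0 m)]
      simp
    have h2 : v m ^ (1 - κ) ≤ v m := by
      calc v m ^ (1 - κ) ≤ v m ^ (1 : ℝ) := Real.rpow_le_rpow_of_exponent_le (hv1 m) (by linarith)
        _ = v m := Real.rpow_one _
    have h3 : 0 < v m ^ (1 - κ) := Real.rpow_pos_of_pos (hv0 m) _
    nlinarith
  have hTm : ∀ m n, n ∈ T m → v m ^ (κ - 1) ≤ 1 / 2 ∧ Q n ∧ v m / 2 ≤ pos n := by
    intro m n hn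
    by_cases hg : v m ^ (κ - 1) ≤ 1 / 2
    · rw [hT] at hn
      simp only [hg, if_true, Finset.mem_filter, Set.Finite.mem_toFinset] at hn
      exact ⟨hg, hn.1.1, hn.2⟩
    · exfalso
      rw [hT] at hn
      simp only [hg, if_false, Finset.notMem_empty] at hn
  have hp0 : ∀ n, 0 ≤ pos n := hpos
  refine glimsup hσ T cen (fun _ n => 8 / c * pos n ^ (κ - 1))
    (fun m => 8 / c * (v m / 2) ^ (κ - 1))
    (fun m n => mul_nonneg (by positivity) (Real.rpow_nonneg (hp0 n) _)) ?_ ?_ ?_ _ ?_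
  · intro m n hn
    obtain ⟨_, _, h2⟩ := hTm m n hn
    have h3 : 0 < v m / 2 := by have := hv0 m; linarith
    have := Real.rpow_le_rpow_of_nonpos h3 h2 (show κ - 1 ≤ 0 by linarith)
    gcongr
  · have h1 : ∀ m, 8 / c * (v m / 2) ^ (κ - 1) = (8 / c / 2 ^ (κ - 1)) * v m ^ (κ - 1) := by
      intro m
      rw [Real.div_rpow (hv0 m).le (by norm_num)]
      ring
    simp only [h1]
    have := hρ.const_mul (8 / c / 2 ^ (κ - 1))
    simpa using this
  · refine Summable.of_nonneg_of_le (fun m => Finset.sum_nonneg fun n _ => by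
        have := Real.rpow_nonneg (hp0 n) (κ - 1)
        positivity) (fun m => ?_)
      (hsum.mul_left ((16 / c) ^ σ * C' * (1 / 2) ^ e))
    by_cases hg : v m ^ (κ - 1) ≤ 1 / 2
    · have h1 : ∀ n ∈ T m, (2 * (8 / c * pos n ^ (κ - 1))) ^ σ = (16 / c) ^ σ * pos n ^ (-τ) := by
        intro n _
        rw [show 2 * (8 / c * pos n ^ (κ - 1)) = 16 / c * pos n ^ (κ - 1) by ring,
          Real.mul_rpow (by positivity) (Real.rpow_nonneg (hp0 n) _), ← Real.rpow_mul (hp0 n),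
          show (κ - 1) * σ = -τ by rw [hτdef]; ring]
      rw [Finset.sum_congr rfl h1, ← Finset.mul_sum]
      have h2 := hsb (v m / 2) (by have := hv2 m hg; linarith) (T m)
        (fun n hn => ⟨(hTm m n hn).2.1, (hTm m n hn).2.2⟩)
      calc (16 / c) ^ σ * ∑ n ∈ T m, pos n ^ (-τ)
          ≤ (16 / c) ^ σ * (C' * (v m / 2) ^ (e0 - τ)) := by gcongr
        _ = (16 / c) ^ σ * C' * (1 / 2) ^ e * v m ^ e := by
            rw [show v m / 2 = 1 / 2 * v m by ring, Real.mul_rpow (by norm_num) (hv0 m).le]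
            ring
    · have : T m = ∅ := by rw [hT]; simp only [hg, if_false]
      rw [this, Finset.sum_empty]
      have := hv0 m
      positivity
  · rintro α ⟨hα, hfr⟩
    have hgood : ∀ᶠ m in atTop, v m ^ (κ - 1) ≤ 1 / 2 := by
      have := hρ.eventually_lt_const (show (0 : ℝ) < 1 / 2 by norm_num)
      filter_upwards [this] with m hm
      exact hm.le
    refine (hfr.and_eventually hgood).mono ?_
    rintro m ⟨⟨n, hn, hbad⟩, hg⟩
    -- the size of the values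
    have hsize : ∀ β ∈ A m n, F m β ≤ 2 * pos n ∧ pos n / 2 ≤ F m β ∧ F m β ^ κ ≤ F m β / 2 ∧ 0 < F m β := by
      rintro β ⟨hβ, hnβ⟩
      have h1 := hv m β hβ
      have h0 : 0 < F m β := by linarith [hv0 m]
      have h2 : F m β ^ (κ - 1) ≤ 1 / 2 :=
        (Real.rpow_le_rpow_of_nonpos (hv0 m) h1 (by linarith)).trans hg
      have h3 : F m β ^ κ = F m β ^ (κ - 1) * F m β := by
        rw [Real.rpow_sub_one h0.ne', div_mul_cancel₀ _ h0.ne']
      have h4 : F m β ^ κ ≤ F m β / 2 := by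
        rw [h3]
        nlinarith
      rw [abs_le] at hnβ
      refine ⟨by linarith [hnβ.1], by linarith [hnβ.2], h4, h0⟩
    have hαA : α ∈ A m n := ⟨hα, hn⟩
    have hne : (A m n).Nonempty := ⟨α, hαA⟩
    have hcA : cen m n ∈ A m n := by
      rw [hcen]
      simp only [hne, dif_pos]
      exact hne.some_mem
    obtain ⟨hs1, hs2, hs3, hs4⟩ := hsize α hαA
    have hn0 : (0 : ℝ) < pos n := by linarith
    refine ⟨n, ?_, ?_⟩
    · rw [hT]
      simp only [hg, if_true, Finset.mem_filter, Set.Finite.mem_toFinset]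
      refine ⟨⟨hbad, ?_⟩, ?_⟩
      · have h1 := hF m α hα b ⟨hab, le_rfl⟩ hα.2
        have h2 : 0 ≤ c * (b - α) * F m α := by
          have : 0 ≤ b - α := by linarith [hα.2]
          positivity
        have h4 := (abs_le.1 hn).2
        have h5 := (hsize α hαA).2.2.1
        have h6 : F m α ≤ F m b := by linarith
        have h7 : pos n ≤ 2 * F m b := by linarith
        exact h7
      · have h1 := hv m α hα
        have h2 := (abs_le.1 hn).1
        linarith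
    · -- two points of `A m n` are close
      have hclose : ∀ x ∈ A m n, ∀ y ∈ A m n, x ≤ y → y - x ≤ 8 / c * pos n ^ (κ - 1) := by
        intro x hx y hy hxy
        obtain ⟨x1, x2, x3, x4⟩ := hsize x hx
        obtain ⟨y1, y2, y3, y4⟩ := hsize y hy
        have h1 := hF m x hx.1 y hy.1 hxy
        have h2 := (abs_le.1 hx.2).2
        have h3 := (abs_le.1 hy.2).1
        have hk : ∀ z : ℝ, 0 < z → z ≤ 2 * pos n → z ^ κ ≤ 2 * pos n ^ κ := by
          intro z hz hz2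
          calc z ^ κ ≤ (2 * pos n) ^ κ := Real.rpow_le_rpow hz.le hz2 hκ0
            _ = 2 ^ κ * pos n ^ κ := Real.mul_rpow (by norm_num) hn0.le
            _ ≤ 2 * pos n ^ κ := by
                have : (2 : ℝ) ^ κ ≤ 2 ^ (1 : ℝ) :=
                  Real.rpow_le_rpow_of_exponent_le (by norm_num) hκ.le
                rw [Real.rpow_one] at this
                gcongr
        have h4 := hk _ x4 x1
        have h5 := hk _ y4 y1
        have h6 : c * (y - x) * (pos n / 2) ≤ 4 * pos n ^ κ := by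
          have h7 : c * (y - x) * (pos n / 2) ≤ c * (y - x) * F m x := by
            have : 0 ≤ c * (y - x) := mul_nonneg hc.le (by linarith)
            gcongr
          linarith
        rw [Real.rpow_sub_one hn0.ne']
        rw [show 8 / c * (pos n ^ κ / pos n) = (8 * pos n ^ κ) / (c * pos n) by field_simp,
          le_div_iff₀ (by positivity)]
        nlinarith
      rcases le_total α (cen m n) with h | h
      · rw [abs_sub_comm, abs_of_nonneg (by linarith)]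
        exact hclose α hαA _ hcA h
      · rw [abs_of_nonneg (by linarith)]
        exact hclose _ hcA α hαA h

/-- powers `α ^ g_m` -/
theorem gpowers {I : Type} {e0 C : ℝ} {pos : I → ℝ} {Q : I → Prop} (he : 0 < e0) (hC : 0 < C)
    (hpos : ∀ n, 0 ≤ pos n)
    (hcount : ∀ N : ℝ, 1 ≤ N → ∀ S : Finset I, (∀ n ∈ S, Q n ∧ pos n ≤ N) →
      (S.card : ℝ) ≤ C * N ^ e0)
    (g : ℕ → ℝ) (σ κ : ℝ) (hg1 : ∀ m, 1 ≤ g m)
    (hg : ∀ t : ℝ, 0 < t → Summable fun m => Real.exp (-(t * g m)))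
    (hσ : 0 < σ) (hκ0 : 0 ≤ κ) (hκ : κ < 1) (hex : e0 < σ * (1 - κ)) :
    ∃ E : Set ℝ, μH[σ] E = 0 ∧ ∀ α : ℝ, 1 < α → α ∉ E → ∀ᶠ m in atTop, ∀ n : I,
      |pos n - α ^ g m| ≤ (α ^ g m) ^ κ → ¬ Q n := by
  set E : ℕ → Set ℝ := fun k => {α | α ∈ Set.Icc (1 + 1 / ((k : ℝ) + 1)) ((k : ℝ) + 2) ∧
    ∃ᶠ m in atTop, ∃ n : I, |pos n - α ^ g m| ≤ (α ^ g m) ^ κ ∧ Q n} with hE
  have hnull : ∀ k, μH[σ] (E k) = 0 := by
    intro k
    set a : ℝ := 1 + 1 / ((k : ℝ) + 1) with ha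
    set b : ℝ := (k : ℝ) + 2 with hb
    have hk0 : (0 : ℝ) ≤ k := Nat.cast_nonneg k
    have ha1 : 1 < a := by
      rw [ha]
      have : 0 < 1 / ((k : ℝ) + 1) := by positivity
      linarith
    have hb0 : 0 < b := by positivity
    refine gmetric2 he hC hpos hcount (fun m α => α ^ g m) (fun m => a ^ g m) a b (1 / b) σ κ
      (by positivity) (fun m => Real.one_le_rpow ha1.le (by linarith [hg1 m])) ?_ ?_ hσ hκ0 hκ ?_
    · intro m α hα
      exact Real.rpow_le_rpow (by linarith) hα.1 (by linarith [hg1 m])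
    · intro m α hα β hβ hαβ
      have hα0 : 0 < α := by linarith [hα.1]
      have hβ0 : 0 < β := by linarith
      have hs : 0 ≤ (β - α) / α := div_nonneg (by linarith) hα0.le
      have h1 := one_add_mul_self_le_rpow_one_add (show (-1 : ℝ) ≤ (β - α) / α by linarith) (hg1 m)
      have h2 : 1 + (β - α) / α = β / α := by field_simp; ring
      rw [h2, Real.div_rpow hβ0.le hα0.le, le_div_iff₀ (Real.rpow_pos_of_pos hα0 _)] at h1
      have hp : 0 < α ^ g m := Real.rpow_pos_of_pos hα0 _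
      have h3 : (β - α) / α ≤ g m * ((β - α) / α) := by nlinarith [hg1 m]
      have h4 : (β - α) / b ≤ (β - α) / α :=
        div_le_div_of_nonneg_left (by linarith) hα0 hα.2
      have h5 : 1 / b * (β - α) * α ^ g m = (β - α) / b * α ^ g m := by ring
      rw [h5]
      nlinarith
    · have ht : 0 < (σ * (1 - κ) - e0) * Real.log a := mul_pos (by linarith) (Real.log_pos ha1)
      refine (hg _ ht).congr fun m => ?_
      rw [← Real.rpow_mul (by linarith), Real.rpow_def_of_pos (by linarith)]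
      congr 1
      ring
  refine ⟨⋃ k, E k, measure_iUnion_null hnull, fun α hα hαE => ?_⟩
  by_contra hc
  apply hαE
  rw [Set.mem_iUnion]
  obtain ⟨k₁, hk₁⟩ := exists_nat_ge α
  obtain ⟨k₂, hk₂⟩ := exists_nat_gt (1 / (α - 1))
  have hα1 : 0 < α - 1 := by linarith
  refine ⟨max k₁ k₂, ⟨?_, ?_⟩, ?_⟩
  · have h1 : (k₂ : ℝ) ≤ ((max k₁ k₂ : ℕ) : ℝ) := by exact_mod_cast le_max_right _ _
    have h2 : 1 / (((max k₁ k₂ : ℕ) : ℝ) + 1) ≤ α - 1 := by
      rw [div_le_iff₀ (by positivity)]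
      rw [div_lt_iff₀ hα1] at hk₂
      nlinarith
    linarith
  · have h1 : (k₁ : ℝ) ≤ ((max k₁ k₂ : ℕ) : ℝ) := by exact_mod_cast le_max_left _ _
    linarith
  · rw [Filter.not_eventually] at hc
    refine hc.mono fun m hm => ?_
    push Not at hm
    obtain ⟨n, h1, h2⟩ := hm
    exact ⟨n, h1, h2⟩

/-- Piatetski-Shapiro sequences `m ^ c` -/
theorem gpiatetski {I : Type} {e0 C : ℝ} {pos : I → ℝ} {Q : I → Prop} (he : 0 < e0) (hC : 0 < C)
    (hpos : ∀ n, 0 ≤ pos n)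
    (hcount : ∀ N : ℝ, 1 ≤ N → ∀ S : Finset I, (∀ n ∈ S, Q n ∧ pos n ≤ N) →
      (S.card : ℝ) ≤ C * N ^ e0)
    (σ κ : ℝ) (hσ : 0 < σ) (hκ0 : 0 ≤ κ) (hκ : κ < 1) :
    ∃ E : Set ℝ, μH[σ] E = 0 ∧ ∀ c : ℝ, 0 < c → 1 < c * (σ * (1 - κ) - e0) → c ∉ E →
      ∀ᶠ m : ℕ in atTop, ∀ n : I, |pos n - (m : ℝ) ^ c| ≤ ((m : ℝ) ^ c) ^ κ → ¬ Q n := by
  rcases le_or_gt (σ * (1 - κ)) e0 with hle | hex
  · refine ⟨∅, measure_empty, fun c hc h1 => ?_⟩
    exfalso
    nlinarith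
  set δ : ℝ := σ * (1 - κ) - e0 with hδ
  have hδ0 : 0 < δ := by linarith
  set c₀ : ℝ := 1 / δ with hc₀
  have hc₀0 : 0 < c₀ := by positivity
  set E : ℕ → Set ℝ := fun k => {c | c ∈ Set.Icc (c₀ + 1 / ((k : ℝ) + 1)) (c₀ + (k : ℝ) + 1) ∧
    ∃ᶠ m : ℕ in atTop, ∃ n : I, |pos n - ((m : ℝ) + 2) ^ c| ≤ (((m : ℝ) + 2) ^ c) ^ κ ∧ Q n} with hE
  have hnull : ∀ k, μH[σ] (E k) = 0 := by
    intro k
    have hk0 : (0 : ℝ) ≤ k := Nat.cast_nonneg k
    set a : ℝ := c₀ + 1 / ((k : ℝ) + 1) with ha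
    have ha0 : c₀ < a := by
      rw [ha]
      have : 0 < 1 / ((k : ℝ) + 1) := by positivity
      linarith
    have hb1 : ∀ m : ℕ, (1 : ℝ) ≤ (m : ℝ) + 2 := fun m => by
      have : (0 : ℝ) ≤ m := Nat.cast_nonneg m
      linarith
    refine gmetric2 he hC hpos hcount (fun m c => ((m : ℝ) + 2) ^ c) (fun m => ((m : ℝ) + 2) ^ a) a
      (c₀ + (k : ℝ) + 1) (Real.log 2) σ κ (Real.log_pos (by norm_num))
      (fun m => Real.one_le_rpow (hb1 m) (by linarith)) ?_ ?_ hσ hκ0 hκ ?_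
    · intro m c hc
      exact Real.rpow_le_rpow_of_exponent_le (hb1 m) hc.1
    · intro m x hx y hy hxy
      have hm0 : (0 : ℝ) < (m : ℝ) + 2 := by positivity
      have h1 : ((m : ℝ) + 2) ^ y = ((m : ℝ) + 2) ^ x * ((m : ℝ) + 2) ^ (y - x) := by
        rw [← Real.rpow_add hm0]
        congr 1
        ring
      have h2 : 1 + Real.log 2 * (y - x) ≤ ((m : ℝ) + 2) ^ (y - x) := by
        rw [Real.rpow_def_of_pos hm0]
        have h3 := Real.add_one_le_exp (Real.log ((m : ℝ) + 2) * (y - x))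
        have h4 : Real.log 2 ≤ Real.log ((m : ℝ) + 2) :=
          Real.log_le_log (by norm_num) (by have : (0 : ℝ) ≤ m := Nat.cast_nonneg m; linarith)
        have h5 : Real.log 2 * (y - x) ≤ Real.log ((m : ℝ) + 2) * (y - x) :=
          mul_le_mul_of_nonneg_right h4 (by linarith)
        linarith
      have hp : 0 < ((m : ℝ) + 2) ^ x := Real.rpow_pos_of_pos hm0 _
      rw [h1]
      nlinarith
    · have hlt : a * (e0 - σ * (1 - κ)) < -1 := by
        have h1 : 1 < a * δ := by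
          have h2 : c₀ * δ = 1 := by rw [hc₀]; field_simp
          nlinarith
        rw [show e0 - σ * (1 - κ) = -δ by rw [hδ]; ring]
        linarith
      have h1 : Summable fun m : ℕ => ((m + 2 : ℕ) : ℝ) ^ (a * (e0 - σ * (1 - κ))) :=
        (summable_nat_add_iff 2).2 (Real.summable_nat_rpow.2 hlt)
      refine h1.congr fun m => ?_
      rw [← Real.rpow_mul (by positivity)]
      push_cast
      rfl
  refine ⟨⋃ k, E k, measure_iUnion_null hnull, fun c hc0 hc1 hcE => ?_⟩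
  have key : ∀ᶠ m : ℕ in atTop, ∀ n : I, |pos n - ((m : ℝ) + 2) ^ c| ≤ (((m : ℝ) + 2) ^ c) ^ κ →
      ¬ Q n := by
    by_contra hc
    apply hcE
    rw [Set.mem_iUnion]
    have hcc : c₀ < c := by
      rw [hc₀, div_lt_iff₀ hδ0]
      exact hc1
    obtain ⟨k₁, hk₁⟩ := exists_nat_ge c
    obtain ⟨k₂, hk₂⟩ := exists_nat_gt (1 / (c - c₀))
    have hα1 : 0 < c - c₀ := by linarith
    refine ⟨max k₁ k₂, ⟨?_, ?_⟩, ?_⟩
    · have h1 : (k₂ : ℝ) ≤ ((max k₁ k₂ : ℕ) : ℝ) := by exact_mod_cast le_max_right _ _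
      have h2 : 1 / (((max k₁ k₂ : ℕ) : ℝ) + 1) ≤ c - c₀ := by
        rw [div_le_iff₀ (by positivity)]
        rw [div_lt_iff₀ hα1] at hk₂
        nlinarith
      linarith
    · have h1 : (k₁ : ℝ) ≤ ((max k₁ k₂ : ℕ) : ℝ) := by exact_mod_cast le_max_left _ _
      linarith
    · rw [Filter.not_eventually] at hc
      refine hc.mono fun m hm => ?_
      push Not at hm
      obtain ⟨n, h1, h2⟩ := hm
      exact ⟨n, h1, h2⟩
  obtain ⟨m₀, hm₀⟩ := eventually_atTop.1 key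
  filter_upwards [eventually_ge_atTop (m₀ + 2)] with m hm n hn
  obtain ⟨j, rfl⟩ := Nat.exists_eq_add_of_le' hm
  refine hm₀ (j + m₀) (by omega) n ?_
  rw [show (((j + (m₀ + 2) : ℕ)) : ℝ) = (((j + m₀ : ℕ)) : ℝ) + 2 by push_cast; ring] at hn
  exact hn


end Pool.Agent.D0H72.AN
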