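import Pool.Agent.D0H72.AN.Gen
import Pool.Agent.D0H45.PG.Stm

/-!
# The number of primes in all short intervals in the windows of generic families
-/

set_option autoImplicit false

namespace Pool.Agent.D0H72.AN

open Finset Filter Topology MeasureTheory
open Pool.Agent.Q240.KS (pic)
open Pool.Agent.D0H45.PG (Grid)

/-- all intervals `(x, x + x ^ θ]`, `x ≥ x₀`, `|x - y| ≤ w`, contain at least `c x ^ θ / log x` primes -/
def Full (c θ x₀ y w : ℝ) : Prop :=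
  ∀ x : ℝ, x₀ ≤ x → |x - y| ≤ w → c * x ^ θ / Real.log x ≤ (pic x (x ^ θ) : ℝ)

/-- the three statements for intervals -/
def Windows (c θ e x₀ : ℝ) : Prop :=
  (∀ (u w : ℕ → ℝ) (K σ κ : ℝ), (∀ m, 1 ≤ u m) → (∀ m, |w m| ≤ K * u m) → 0 < σ → θ ≤ κ → κ < 1 →
    (Summable fun m => u m ^ (e - σ * (1 - κ))) →
    ∃ E : Set ℝ, μH[σ] E = 0 ∧ ∀ α : ℝ, 0 < α → α ∉ E → ∀ᶠ m in atTop,
      Full c θ x₀ (α * u m + w m) (u m ^ κ)) ∧
  (∀ (g : ℕ → ℝ) (σ κ : ℝ), (∀ m, 1 ≤ g m) →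
    (∀ t : ℝ, 0 < t → Summable fun m => Real.exp (-(t * g m))) → 0 < σ → θ ≤ κ → κ < 1 →
    e < σ * (1 - κ) →
    ∃ E : Set ℝ, μH[σ] E = 0 ∧ ∀ α : ℝ, 1 < α → α ∉ E → ∀ᶠ m in atTop,
      Full c θ x₀ (α ^ g m) ((α ^ g m) ^ κ)) ∧
  (∀ σ κ : ℝ, 0 < σ → θ ≤ κ → κ < 1 →
    ∃ E : Set ℝ, μH[σ] E = 0 ∧ ∀ a : ℝ, 0 < a → 1 < a * (σ * (1 - κ) - e) → a ∉ E →
      ∀ᶠ m : ℕ in atTop, Full c θ x₀ ((m : ℝ) ^ a) (((m : ℝ) ^ a) ^ κ))

theorem tendsto_of_summable {u : ℕ → ℝ} {e : ℝ} (hu : ∀ m, 1 ≤ u m)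
    (hs : Summable fun m => u m ^ e) : Tendsto u atTop atTop := by
  have hten := hs.tendsto_atTop_zero
  have he : e < 0 := by
    by_contra hc
    push Not at hc
    have h1 : ∀ m, (1 : ℝ) ≤ u m ^ e := fun m => Real.one_le_rpow (hu m) hc
    have h2 := ge_of_tendsto' hten h1
    linarith
  refine tendsto_atTop.2 fun b => ?_
  have hB : 0 < max b 1 := lt_of_lt_of_le one_pos (le_max_right _ _)
  have h3 : 0 < (max b 1) ^ e := Real.rpow_pos_of_pos hB _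
  filter_upwards [hten.eventually_lt_const h3] with m hm
  by_contra hc
  push Not at hc
  have h4 : u m ≤ max b 1 := hc.le.trans (le_max_left _ _)
  have h5 := Real.rpow_le_rpow_of_nonpos (lt_of_lt_of_le one_pos (hu m)) h4 he.le
  linarith

theorem growth {Y : ℕ → ℝ} (hY : Tendsto Y atTop atTop) {κ κ' : ℝ} (h : κ < κ') (B : ℝ) :
    ∀ᶠ m in atTop, B * Y m ^ κ ≤ Y m ^ κ' := by
  have h1 := (tendsto_rpow_atTop (show 0 < κ' - κ by linarith)).comp hY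
  filter_upwards [h1.eventually_ge_atTop B, hY.eventually_gt_atTop 0] with m hm hm0
  have h2 : Y m ^ κ' = Y m ^ (κ' - κ) * Y m ^ κ := by
    rw [← Real.rpow_add hm0]
    congr 1
    ring
  rw [h2]
  have h3 : 0 < Y m ^ κ := Real.rpow_pos_of_pos hm0 _
  have h4 : B ≤ Y m ^ (κ' - κ) := hm
  nlinarith

theorem full_of {lam e0 c η x₀ : ℝ} {S : Set ℝ} (h : Grid lam e0 c η x₀ S) {y Y κ κ' B : ℝ}
    (hY : 1 ≤ Y) (hB : 0 ≤ B) (hy : y ≤ B * Y) (hκ : 1 - lam - η ≤ κ) (hκ1 : κ ≤ 1)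
    (hYB : (2 + B) * Y ^ κ ≤ Y ^ κ') (hS : ∀ t ∈ S, ¬ |t - y| ≤ Y ^ κ') :
    Full c (1 - lam - η) x₀ y (Y ^ κ) := by
  intro x hx hxy
  by_contra hcon
  push Not at hcon
  obtain ⟨t, htS, ht1, ht2⟩ := h.near x hx hcon
  refine hS t htS ?_
  have hx1 : 1 ≤ x := by linarith [h.x0]
  have hκ0 : 0 < κ := by linarith [h.η0, h.η1]
  have hY0 : 0 < Y := by linarith
  have hYκ : Y ^ κ ≤ Y := by
    calc Y ^ κ ≤ Y ^ (1 : ℝ) := Real.rpow_le_rpow_of_exponent_le hY hκ1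
      _ = Y := Real.rpow_one _
  rw [abs_le] at hxy
  have h1 : x ≤ (B + 1) * Y := by nlinarith [hxy.2]
  have h2 : x ^ (1 - lam - η) ≤ (B + 1) * Y ^ κ := by
    calc x ^ (1 - lam - η) ≤ x ^ κ := Real.rpow_le_rpow_of_exponent_le hx1 hκ
      _ ≤ ((B + 1) * Y) ^ κ := Real.rpow_le_rpow (by linarith) h1 hκ0.le
      _ = (B + 1) ^ κ * Y ^ κ := Real.mul_rpow (by linarith) hY0.le
      _ ≤ (B + 1) * Y ^ κ := by
          have h3 : (B + 1) ^ κ ≤ (B + 1) ^ (1 : ℝ) :=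
            Real.rpow_le_rpow_of_exponent_le (by linarith) hκ1
          rw [Real.rpow_one] at h3
          have := Real.rpow_nonneg hY0.le κ
          gcongr
  have h4 := Real.rpow_nonneg hY0.le κ
  rw [abs_le]
  constructor <;> nlinarith [hxy.1, hxy.2]

section

variable {lam e0 c η x₀ : ℝ} {S : Set ℝ}

theorem grid_count (h : Grid lam e0 c η x₀ S) : ∃ C : ℝ, 0 < C ∧ ∀ N : ℝ, 1 ≤ N →
    ∀ T : Finset S, (∀ t ∈ T, True ∧ (t : ℝ) ≤ N) → (T.card : ℝ) ≤ C * N ^ (e0 - η) := by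
  classical
  obtain ⟨C, hC⟩ := h.count
  refine ⟨max C 1, lt_of_lt_of_le one_pos (le_max_right _ _), fun N hN T hT => ?_⟩
  obtain ⟨h1, h2⟩ := hC N hN
  have h3 : (T.card : ℝ) ≤ ({t | t ∈ S ∧ t ≤ N}.ncard : ℝ) := by
    have h4 : ((T.map (Function.Embedding.subtype _) : Finset ℝ) : Set ℝ) ⊆ {t | t ∈ S ∧ t ≤ N} := by
      intro t ht
      rw [Finset.mem_coe, Finset.mem_map] at ht
      obtain ⟨s, hs, rfl⟩ := ht
      exact ⟨s.2, (hT s hs).2⟩
    have h5 := Set.ncard_le_ncard h4 h1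
    rw [Set.ncard_coe_finset, Finset.card_map] at h5
    exact_mod_cast h5
  have h6 : 0 ≤ N ^ (e0 - η) := Real.rpow_nonneg (by linarith) _
  calc (T.card : ℝ) ≤ C * N ^ (e0 - η) := h3.trans h2
    _ ≤ max C 1 * N ^ (e0 - η) := mul_le_mul_of_nonneg_right (le_max_left _ _) h6

theorem windows (h : Grid lam e0 c η x₀ S) : Windows c (1 - lam - η) e0 x₀ := by
  classical
  obtain ⟨C, hC, hcount⟩ := grid_count h
  have hη := h.η0
  have he1 : 0 < e0 - η := by linarith [h.η2]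
  have hpos : ∀ t : S, 0 ≤ (t : ℝ) := fun t => by linarith [h.pos t t.2]
  have hθ0 : 0 < 1 - lam - η := by linarith [h.η1]
  have hk : ∀ σ κ : ℝ, 0 < σ → κ < 1 → ∃ κ' : ℝ, κ < κ' ∧ κ' < 1 ∧
      e0 - η - σ * (1 - κ') ≤ e0 - σ * (1 - κ) := by
    intro σ κ hσ hκ
    refine ⟨κ + min (η / σ) ((1 - κ) / 2), ?_, ?_, ?_⟩
    · have : 0 < min (η / σ) ((1 - κ) / 2) := lt_min (div_pos hη hσ) (by linarith)
      linarith
    · have := min_le_right (η / σ) ((1 - κ) / 2)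
      linarith
    · have h1 := min_le_left (η / σ) ((1 - κ) / 2)
      have h2 : σ * min (η / σ) ((1 - κ) / 2) ≤ η := by
        calc σ * min (η / σ) ((1 - κ) / 2) ≤ σ * (η / σ) := mul_le_mul_of_nonneg_left h1 hσ.le
          _ = η := by field_simp
      nlinarith
  refine ⟨fun u w K σ κ hu hw hσ hθ hκ hs => ?_, fun g σ κ hg1 hg hσ hθ hκ hex => ?_,
    fun σ κ hσ hθ hκ => ?_⟩
  · obtain ⟨κ', hk1, hk2, hk3⟩ := hk σ κ hσ hκ
    have hs' : Summable fun m => u m ^ (e0 - η - σ * (1 - κ')) :=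
      Summable.of_nonneg_of_le (fun m => Real.rpow_nonneg (by linarith [hu m]) _)
        (fun m => Real.rpow_le_rpow_of_exponent_le (hu m) hk3) hs
    obtain ⟨E, hE, H⟩ := gmetric (I := S) (pos := fun t : S => (t : ℝ)) (Q := fun _ => True) he1 hC hpos
      hcount u w K σ κ' hu hw hσ hk2 hs'
    have hK : 0 ≤ K := by
      have h1 := (abs_nonneg (w 0)).trans (hw 0)
      by_contra hc
      nlinarith [hu 0]
    refine ⟨E, hE, fun α hα hαE => ?_⟩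
    filter_upwards [H α hα hαE, growth (tendsto_of_summable hu hs) hk1 (2 + (α + K))] with m hm hm2
    refine full_of h (hu m) (by linarith) ?_ hθ hκ.le hm2 fun t ht hc => hm ⟨t, ht⟩ hc trivial
    have := (abs_le.1 (hw m)).2
    nlinarith
  · obtain ⟨κ', hk1, hk2, hk3⟩ := hk σ κ hσ hκ
    obtain ⟨E, hE, H⟩ := gpowers (I := S) (pos := fun t : S => (t : ℝ)) (Q := fun _ => True) he1 hC hpos
      hcount g σ κ' hg1 hg hσ (by linarith) hk2 (by linarith)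
    refine ⟨E, hE, fun α hα hαE => ?_⟩
    have hα1 : ∀ m, 1 ≤ α ^ g m := fun m => Real.one_le_rpow hα.le (by linarith [hg1 m])
    have ht : Tendsto (fun m => α ^ g m) atTop atTop := by
      refine tendsto_of_summable (e := -1) hα1 ((hg (Real.log α) (Real.log_pos hα)).congr fun m => ?_)
      rw [← Real.rpow_mul (by linarith), Real.rpow_def_of_pos (by linarith)]
      congr 1
      ring
    filter_upwards [H α hα hαE, growth ht hk1 (2 + 1)] with m hm hm2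
    exact full_of h (hα1 m) one_pos.le (by linarith) hθ hκ.le hm2 fun t ht hc => hm ⟨t, ht⟩ hc trivial
  · obtain ⟨κ', hk1, hk2, hk3⟩ := hk σ κ hσ hκ
    obtain ⟨E, hE, H⟩ := gpiatetski (I := S) (pos := fun t : S => (t : ℝ)) (Q := fun _ => True) he1 hC hpos
      hcount σ κ' hσ (by linarith) hk2
    refine ⟨E, hE, fun a ha ha1 haE => ?_⟩
    have ht : Tendsto (fun m : ℕ => (m : ℝ) ^ a) atTop atTop :=
      (tendsto_rpow_atTop ha).comp tendsto_natCast_atTop_atTop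
    have hc1 : 1 < a * (σ * (1 - κ') - (e0 - η)) := by nlinarith
    filter_upwards [H a ha hc1 haE, growth ht hk1 (2 + 1), ht.eventually_ge_atTop 1] with m hm hm2 hm3
    exact full_of h hm3 one_pos.le (by linarith) hθ hκ.le hm2 fun t ht hc => hm ⟨t, ht⟩ hc trivial

end

end Pool.Agent.D0H72.AN
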